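import Pool.Agent.P.MP_20b97f_co.Spin.State
import Pool.Agent.Lib.Flows.Basic

/-!
From a multigraph with an even subgraph to the cable network, and from a colouring of the strands
back to a cover by even subgraphs.
-/

set_option autoImplicit false
set_option linter.unusedSectionVars false

namespace Pool.Agent.P.MP_20b97f_co.Spin

open Finset Equiv Pool.Agent.Flows Pool.Agent.Flows.MG

variable {V E : Type} [Fintype V] [DecidableEq V] [Fintype E] [DecidableEq E]

lemma cover_of_colouring {P : Type} [Fintype P] [DecidableEq P] (G : MG V E) (eP : P → E)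
    (o : E → Bool) (e : Perm (P × Bool))
    (hv : ∀ p, G.en (eP (e (p, true)).1) (xor (e (p, true)).2 (o (eP (e (p, true)).1)))
      = G.en (eP (e (p, false)).1) (xor (e (p, false)).2 (o (eP (e (p, false)).1))))
    {N : ℕ} (f : P × Bool → Fin N) (σ : Perm P) (hσ : ∀ p, eP (σ p) = eP p) (h1 : Inv e f)
    (h2 : ∀ p, f (σ p, true) = f (p, false))
    (h3 : ∀ p q, eP p = eP q → f (p, false) = f (q, false) → p = q) :
    (fun y => ((univ.filter fun p => eP p = y).card : ℤ)) ∈ G.Cov := by
  let n : Fin N → E → ℕ := fun c y => (univ.filter fun p => eP p = y ∧ f (p, false) = c).card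
  have hn : ∀ c y, n c y ≤ 1 := fun c y => card_le_one.2 fun p hp q hq => by
    simp only [mem_filter, mem_univ, true_and] at hp hq
    exact h3 p q (hp.1.trans hq.1.symm) (hp.2.trans hq.2.symm)
  have hfl : ∀ c, G.IsFlow fun y => (n c y : ZMod 2) := by
    intro c
    rw [isFlow_iff z2]
    intro w
    let cnt : E → Bool → ZMod 2 := fun y d => ∑ p, if eP p = y ∧ f (p, d) = c then 1 else 0
    have c0 : ∀ y, (n c y : ZMod 2) = cnt y false := fun y => by simp [n, cnt]
    have c1 : ∀ y, cnt y true = cnt y false := fun y => by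
      simp only [cnt]
      rw [← Equiv.sum_comp σ]
      simp only [hσ, h2]
    let Φ : P × Bool → ZMod 2 := fun s =>
      if G.en (eP s.1) (xor s.2 (o (eP s.1))) = w ∧ f s = c then 1 else 0
    have e1 : G.bd (fun y => (n c y : ZMod 2)) w
        = ∑ y, ∑ d, if G.en y (xor d (o y)) = w then cnt y d else 0 := by
      rw [bd, sum_filter, Fintype.sum_prod_type]
      refine sum_congr rfl fun y _ => ?_
      simp only [Fintype.sum_bool, c0, c1]
      cases o y <;> simp [add_comm]
    have e2 : ∑ y, ∑ d, (if G.en y (xor d (o y)) = w then cnt y d else 0) = ∑ s, Φ s := by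
      rw [sum_comm, Fintype.sum_prod_type_right]
      refine sum_congr rfl fun d _ => ?_
      have : ∀ y, (if G.en y (xor d (o y)) = w then cnt y d else 0)
          = ∑ p, if eP p = y then Φ (p, d) else 0 := by
        intro y
        simp only [cnt, Φ]
        split_ifs with hy
        · refine sum_congr rfl fun p _ => ?_
          by_cases hp : eP p = y <;> simp [hp, hy]
        · refine (sum_eq_zero fun p _ => ?_).symm
          by_cases hp : eP p = y <;> simp [hp, hy]
      simp only [this]
      rw [sum_comm]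
      simp
    rw [e1, e2, ← Equiv.sum_comp e, Fintype.sum_prod_type]
    refine sum_eq_zero fun p _ => ?_
    have : Φ (e (p, true)) = Φ (e (p, false)) := by simp only [Φ, hv p, h1 p]
    rw [Fintype.sum_bool, this, z2]
  have : (fun y => ((univ.filter fun p => eP p = y).card : ℤ))
      = ∑ c, ind fun y => (n c y : ZMod 2) := by
    funext y
    have hi : ∀ c, ind (fun y => (n c y : ZMod 2)) y = (n c y : ℤ) := by
      intro c
      rcases Nat.le_one_iff_eq_zero_or_eq_one.1 (hn c y) with h | h <;> simp [ind, h]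
    rw [Finset.sum_apply]
    simp only [hi, n]
    rw [card_eq_sum_card_fiberwise (f := fun p => f (p, false)) (t := univ) (by simp)]
    push_cast
    simp only [filter_filter]
  rw [this]
  exact sum_mem fun c _ => ind_mem (hfl c)

variable (G : MG V E) (D : Finset E)

/-- The vertex of a cable end. -/
def vt (o : E → Bool) : Om {e // e ∈ D} {e // e ∉ D} × Bool → V
  | (Sum.inl e, b) => G.en e (xor b (o e))
  | (Sum.inr (w, d), _) => G.en w d

lemma exists_rho₀ (hD : ∀ v, Even (univ.filter fun s : {e // e ∈ D} × Bool =>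
      G.en s.1 s.2 = v).card) :
    ∃ (o : E → Bool) (ρ : Perm (Om {e // e ∈ D} {e // e ∉ D})), (∀ e, e ∉ D → o e = false) ∧
      ∀ x, vt G D o (x, true) = vt G D o (ρ x, false) := by
  obtain ⟨a, ha, hv⟩ := exists_fpf (fun s : {e // e ∈ D} × Bool => G.en s.1 s.2) hD
  have hb : FPF fun s : {e // e ∈ D} × Bool => (s.1, !s.2) :=
    ⟨fun s => by simp, fun s hs => by simpa using congrArg Prod.snd hs⟩
  obtain ⟨g, g1, g2⟩ := orient ha hb
  have g3 : ∀ e, g (e, false) = !g (e, true) := fun e => g2 (e, true)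
  have g4 : ∀ e, g (e, g (e, true)) = true := by
    intro e
    cases h : g (e, true)
    · rw [g3, h]; rfl
    · exact h
  have g5 : ∀ s, g s = false → s.2 = !g (s.1, true) := by
    rintro ⟨e, b⟩ h
    cases b
    · rw [g3] at h; simpa using h
    · simp [h]
  let r : {e // e ∈ D} → {e // e ∈ D} := fun e => (a (e, g (e, true))).1
  have hr : ∀ e, a (e, g (e, true)) = (r e, !g (r e, true)) := fun e =>
    Prod.ext rfl (g5 _ (by rw [g1, g4]; rfl))
  have hinj : Function.Injective r := by
    intro e e' h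
    have : a (e, g (e, true)) = a (e', g (e', true)) := by rw [hr, hr, h]
    exact congrArg Prod.fst (Function.Involutive.injective ha.inv this)
  refine ⟨fun e => if h : e ∈ D then !g (⟨e, h⟩, true) else false,
    Equiv.sumCongr (Equiv.ofBijective r (Finite.injective_iff_bijective.1 hinj)) (Equiv.refl _),
    fun e he => by simp [he], ?_⟩
  rintro (e | ⟨w, d⟩)
  · have := hv (e, g (e, true))
    rw [hr] at this
    simpa [vt, e.2, (r e).2] using this.symm
  · rfl

lemma nl_comm {S : Type} [Fintype S] [DecidableEq S] (q : ℕ) [NeZero q] (a b : S → S) :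
    nl q a b = nl q b a := by
  simp only [nl, Iv, and_comm]

lemma exists_rho (hD : ∀ v, Even (univ.filter fun s : {e // e ∈ D} × Bool =>
      G.en s.1 s.2 = v).card) :
    ∃ (o : E → Bool) (ρ : Perm (Om {e // e ∈ D} {e // e ∉ D})), (∀ e, e ∉ D → o e = false) ∧
      (∀ x, vt G D o (x, true) = vt G D o (ρ x, false)) ∧
      ∀ s t, vt G D o s = vt G D o t → Same (nu ρ) (al fun _ => 0) s t := by
  obtain ⟨o, ρ₀, ho, h₀⟩ := exists_rho₀ G D hD
  obtain ⟨ρ, hρ, hmin⟩ := exists_min_image
    (univ.filter fun ρ : Perm (Om {e // e ∈ D} {e // e ∉ D}) =>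
      ∀ x, vt G D o (x, true) = vt G D o (ρ x, false))
    (fun ρ => nl 2 (nu ρ) (al fun _ => 0)) ⟨ρ₀, by simpa using h₀⟩
  simp only [mem_filter, mem_univ, true_and] at hρ hmin
  have key : ∀ x y, vt G D o (x, true) = vt G D o (y, true) →
      Same (nu ρ) (al fun _ => 0) (x, true) (y, true) := by
    intro x y hxy
    by_contra hs
    have hne : x ≠ y := by rintro rfl; exact hs fun _ _ => rfl
    have r : Repair (nu ρ) (nu (ρ * swap x y)) (x, true) (ρ x, false) (ρ y, false) (y, true) := by
      refine ⟨fpf_nu _, fpf_nu _, by simp [nu], by simp [nu], by simp [nu], by simp [nu],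
        by simp [hne], ?_⟩
      rintro ⟨z, b⟩ h1 h2 h3 h4
      cases b
      · have a1 : ρ⁻¹ z ≠ x := fun h => h2 (by simp [← h])
        have a2 : ρ⁻¹ z ≠ y := fun h => h3 (by simp [← h])
        simp only [nu, mul_inv_rev, swap_inv, Perm.mul_apply, swap_apply_of_ne_of_ne a1 a2]
        rfl
      · have a1 : z ≠ x := fun h => h1 (by simp [h])
        have a2 : z ≠ y := fun h => h4 (by simp [h])
        simp [nu, swap_apply_of_ne_of_ne a1 a2]
    have h1 := r.nl_merge 2 (fpf_al fun _ => 0) fun h => hs fun f hf => by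
      rw [h f ⟨hf.2, hf.1⟩, ← hf.1 (y, true)]; simp [nu]
    have h2 := hmin (ρ * swap x y) fun z => by
      rw [Perm.mul_apply, ← hρ, swap_apply_def]
      split_ifs with a b
      · rw [a, hxy]
      · rw [b, hxy]
      · rfl
    have h3 := nl_pos 2 (nu (ρ * swap x y)) (al fun _ => 0)
    rw [nl_comm, nl_comm 2 (al _)] at h1
    omega
  have red : ∀ s, ∃ x, vt G D o s = vt G D o (x, true) ∧
      Same (nu ρ) (al fun _ => 0) s (x, true) := by
    rintro ⟨x, b⟩
    cases b
    · refine ⟨ρ⁻¹ x, by rw [hρ]; simp, fun f hf => ?_⟩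
      rw [← hf.1 (x, false)]; simp [nu]
    · exact ⟨x, rfl, fun _ _ => rfl⟩
  refine ⟨o, ρ, ho, hρ, fun s t hst f hf => ?_⟩
  obtain ⟨x, a1, a2⟩ := red s
  obtain ⟨y, b1, b2⟩ := red t
  rw [a2 f hf, b2 f hf, key x y (by rw [← a1, ← b1, hst]) f hf]

lemma cons_iff {o : E → Bool} {ρ : Perm (Om {e // e ∈ D} {e // e ∉ D})}
    (hρ : ∀ x, vt G D o (x, true) = vt G D o (ρ x, false))
    (hs : ∀ s t, vt G D o s = vt G D o t → Same (nu ρ) (al fun _ => 0) s t) (m : ℕ) [NeZero m]
    (φ : {e // e ∉ D} → ZMod m) :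
    Cons ρ m (fun _ => 0) φ ↔ ∀ X : Finset V, (∀ e ∈ D, G.en e false ∈ X ↔ G.en e true ∈ X) →
      ∑ w : {e // e ∉ D} with G.en w.1 false ∈ X, φ w
        = ∑ w : {e // e ∉ D} with G.en w.1 true ∈ X, φ w := by
  classical
  constructor
  · intro h X hX
    have := h (fun s => if vt G D o s ∈ X then 1 else 0) ⟨?_, ?_⟩
    · simp only [vt, sub_smul, sum_sub_distrib, ite_smul, one_smul, zero_smul] at this
      rw [sum_filter, sum_filter]
      exact sub_eq_zero.1 this
    · rintro ⟨x, b⟩
      cases b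
      · simp [nu, hρ]
      · simp [nu, hρ]
    · rintro ⟨e | ⟨w, d⟩, b⟩
      · have := hX e e.2
        cases b <;> cases h : o e <;> simp [al, vt, h, this]
      · simp [al, vt]
  · intro h k hk
    have hm : ∀ c s, vt G D o s ∈ (univ.filter fun s => k s = c).image (vt G D o) ↔ k s = c := by
      intro c s
      simp only [mem_image, mem_filter, mem_univ, true_and]
      exact ⟨fun ⟨t, h1, h2⟩ => by rw [← hs t s h2 k hk, h1], fun h1 => ⟨s, h1, rfl⟩⟩
    have hc : ∀ c, ∑ w : {e // e ∉ D} with k (en w false true) = c, φ w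
        = ∑ w : {e // e ∉ D} with k (en w true true) = c, φ w := by
      intro c
      have := h ((univ.filter fun s => k s = c).image (vt G D o)) fun e he => by
        have a1 := hm c (Sum.inl ⟨e, he⟩, o e)
        have a2 := hm c (Sum.inl ⟨e, he⟩, !o e)
        have a3 := hk.2 (Sum.inl ⟨e, he⟩, o e)
        simp only [vt, Bool.xor_self, Bool.not_xor_self, al] at a1 a2 a3
        rw [a1, a2, a3]
      have a1 : ∀ w : {e // e ∉ D}, ∀ d, G.en w d ∈ (univ.filter fun s => k s = c).image (vt G D o)
          ↔ k (en w d true) = c := fun w d => hm c (en w d true)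
      simpa only [a1] using this
    have hd : ∀ d, ∑ w : {e // e ∉ D}, k (en w d true) • φ w = ∑ c ∈ univ.image k,
        c • ∑ w : {e // e ∉ D} with k (en w d true) = c, φ w := by
      intro d
      rw [← sum_fiberwise_of_maps_to (t := univ.image k) (g := fun w => k (en w d true)) (by simp)]
      refine sum_congr rfl fun c _ => ?_
      rw [smul_sum]
      exact sum_congr rfl fun w hw => by rw [(mem_filter.1 hw).2]
    simp only [sub_smul, sum_sub_distrib, hd, hc, sub_self]

/-- A non-vanishing transition polynomial gives a cover. -/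
lemma cover_of_tp {K : Type} [Fintype K] [DecidableEq K] {o : E → Bool}
    {ρ : Perm (Om {e // e ∈ D} {e // e ∉ D})} (ho : ∀ e, e ∉ D → o e = false)
    (hρ : ∀ x, vt G D o (x, true) = vt G D o (ρ x, false))
    (hZ : ∑ γ : Om {e // e ∈ D} {e // e ∉ D} → K → Bool, (∏ o, cw (γ o)) *
      ((∏ w, lf (γ (ρ⁻¹ (Sum.inl w))) (γ (Sum.inl w))) *
        ∏ w, hf (γ (ρ⁻¹ (Sum.inr (w, false)))) (γ (Sum.inr (w, false)))
          (γ (ρ⁻¹ (Sum.inr (w, true)))) (γ (Sum.inr (w, true)))) ≠ 0) :
    (fun y => if y ∈ D then (Fintype.card K : ℤ) else 2 * Fintype.card K) ∈ G.Cov := by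
  rw [← state] at hZ
  obtain ⟨N, f, x, h1, h2, h3⟩ := penrose edge (ev ρ) sig (fun p q _ h => sig_swap p q h) hZ
  let c : {e // e ∈ D} ⊕ {e // e ∉ D} → E := Sum.elim Subtype.val Subtype.val
  have hc : Function.Injective c := (Equiv.sumCompl fun e => e ∈ D).injective
  have hb : ∀ s : (Om {e // e ∈ D} {e // e ∉ D} × K) × Bool,
      G.en (c (edge (bt s).1)) (xor (bt s).2 (o (c (edge (bt s).1)))) = vt G D o (s.1.1, s.2) := by
    rintro ⟨⟨e | ⟨w, d⟩, i⟩, b⟩
    · rfl
    · simp [bt, edge, c, vt, ho w w.2]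
  have := cover_of_colouring G (fun p => c (edge p)) o (ev ρ)
    (fun p => by rw [ev_true, ev_false, hb, hb, hρ]) f (sig x) (fun p => by rw [edge_sig]) h1 h2
    (fun p q h => h3 p q (hc h))
  convert this using 2 with y
  rw [card_filter, Fintype.sum_prod_type, Fintype.sum_sum_type, Fintype.sum_prod_type]
  have a1 : ∀ w : {e // e ∈ D}, (∑ i : K, if c (edge ((Sum.inl w, i) : Om _ _ × K)) = y then 1 else 0)
      = if (w : E) = y then Fintype.card K else 0 := by
    intro w; by_cases h : (w : E) = y <;> simp [edge, c, h]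
  have a2 : ∀ w : {e // e ∉ D}, (∑ d : Bool, ∑ i : K,
      if c (edge ((Sum.inr (w, d), i) : Om _ _ × K)) = y then 1 else 0)
      = if (w : E) = y then 2 * Fintype.card K else 0 := by
    intro w; by_cases h : (w : E) = y <;> simp [edge, c, h]
  simp only [a1, a2]
  by_cases hy : y ∈ D
  · rw [sum_eq_single ⟨y, hy⟩ (fun b _ hb => if_neg (Subtype.ext_iff.not.1 hb)) (by simp),
      sum_eq_zero fun (w : {e // e ∉ D}) _ => if_neg fun h : (w : E) = y => w.2 (h ▸ hy)]
    simp [hy]
  · rw [sum_eq_single (⟨y, hy⟩ : {e // e ∉ D})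
      (fun b _ hb => if_neg (Subtype.ext_iff.not.1 hb)) (by simp),
      sum_eq_zero fun (w : {e // e ∈ D}) _ => if_neg fun h : (w : E) = y => hy (h ▸ w.2)]
    simp [hy]

end Pool.Agent.P.MP_20b97f_co.Spin
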