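import Mathlib

/-!
Fixed-point-free involutions, orientations of the loops of two of them, and the number of cycles of
a permutation.
-/

set_option autoImplicit false
set_option linter.unusedSectionVars false

namespace Pool.Agent.P.MP_20b97f_co.Spin

open Finset Equiv Equiv.Perm

/-- A fixed-point-free involution. -/
structure FPF {S : Type} (a : S → S) : Prop where
  inv : ∀ s, a (a s) = s
  ne : ∀ s, a s ≠ s

/-- The loops formed by two perfect matchings can be oriented. -/
lemma orient {S : Type} [Fintype S] [DecidableEq S] {a b : S → S} (ha : FPF a) (hb : FPF b) :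
    ∃ g : S → Bool, (∀ s, g (a s) = !g s) ∧ ∀ s, g (b s) = !g s := by
  classical
  let A : Perm S := Function.Involutive.toPerm a ha.inv
  let B : Perm S := Function.Involutive.toPerm b hb.inv
  let π : Perm S := A * B
  have hA : A * A = 1 := by ext s; exact ha.inv s
  have hB : B * B = 1 := by ext s; exact hb.inv s
  have hA' : A⁻¹ = A := inv_eq_of_mul_eq_one_right hA
  have hB' : B⁻¹ = B := inv_eq_of_mul_eq_one_right hB
  have hc : A * π * A⁻¹ = π⁻¹ := by
    simp only [π, mul_inv_rev, hA', hB']
    rw [← mul_assoc, hA, one_mul]
  have hk : ∀ k : ℤ, A * π ^ k = π ^ (-k) * A := by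
    intro k
    have : A * π ^ k * A⁻¹ = π ^ (-k) := by
      rw [← conj_zpow, hc, inv_zpow, zpow_neg]
    rw [← this]; group
  have hne : ∀ s, ¬ π.SameCycle s (a s) := by
    rintro s ⟨k, hs⟩
    have hs' : (π ^ k) s = A s := hs
    rcases Int.even_or_odd' k with ⟨j, rfl | rfl⟩
    · apply ha.ne ((π ^ j) s)
      have h1 : (A * π ^ j) s = (π ^ (-j) * A) s := by rw [hk]
      simp only [Perm.mul_apply] at h1
      change A ((π ^ j) s) = _
      rw [h1, ← hs', ← Perm.mul_apply, ← zpow_add]
      congr 2; ring
    · apply hb.ne ((π ^ j) s)
      have h1 : (A * π ^ j) s = (π ^ (-j) * A) s := by rw [hk]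
      simp only [Perm.mul_apply] at h1
      have h2 : A ((π ^ j) s) = π ((π ^ j) s) := by
        rw [h1, ← hs', ← Perm.mul_apply, ← zpow_add, ← Perm.mul_apply, ← zpow_one_add]
        congr 2; ring
      exact (A.injective h2).symm
  let Q := Quotient (SameCycle.setoid π)
  let r : S → ℕ := fun s => (Fintype.equivFin Q (Quotient.mk _ s) : ℕ)
  have hr : ∀ s t, r s = r t ↔ π.SameCycle s t := by
    intro s t
    simp only [r, Fin.val_inj, EmbeddingLike.apply_eq_iff_eq]
    exact Quotient.eq
  have hflip : ∀ s, decide (r (a s) < r s) = !decide (r s < r (a s)) := by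
    intro s
    have : r s ≠ r (a s) := fun h => hne s ((hr _ _).1 h)
    by_cases h : r s < r (a s)
    · simp [h, not_lt.2 h.le]
    · simp [h, lt_of_le_of_ne (not_lt.1 h) this.symm]
  refine ⟨fun s => decide (r s < r (a s)), fun s => ?_, fun s => ?_⟩
  · simp only [ha.inv]; exact hflip s
  · have h1 : r (a (b s)) = r s := (hr _ _).2 (by
      have : a (b s) = π s := rfl
      rw [this]; simp [SameCycle.refl])
    have h2 : r (b s) = r (a s) := (hr _ _).2 (by
      have h4 : π⁻¹ (a s) = b s := by
        simp only [π, mul_inv_rev, hA', hB', Perm.mul_apply]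
        change b (a (a s)) = b s
        rw [ha.inv]
      rw [← h4]; simp [SameCycle.refl])
    simp only [h1, h2]; exact hflip s

/-- The number of cycles of a permutation governs its sign and its invariant colourings. -/
lemma cyc {P : Type} [Fintype P] [DecidableEq P] (π : Perm P) :
    ∃ c : ℕ, (∀ (X : Type) [Fintype X] [DecidableEq X],
        (univ.filter fun f : P → X => ∀ p, f (π p) = f p).card = Fintype.card X ^ c) ∧
      (sign π : ℤ) = (-1) ^ (Fintype.card P + c) := by
  classical
  let Q := Quotient (SameCycle.setoid π)
  refine ⟨Fintype.card Q, fun X _ _ => ?_, ?_⟩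
  · rw [← Fintype.card_fun, ← card_univ]
    symm
    refine card_bij (fun F _ => fun p => F (Quotient.mk _ p)) (fun F _ => ?_) (fun F _ G _ h => ?_)
      (fun f hf => ?_)
    · simp only [mem_filter, mem_univ, true_and]
      intro p
      congr 1
      exact Quotient.sound (by change π.SameCycle (π p) p; simp [SameCycle.refl])
    · funext q
      induction q using Quotient.inductionOn with
      | h p => exact congrFun h p
    · simp only [mem_filter, mem_univ, true_and] at hf
      have h1 : ∀ (n : ℕ) p, f ((π ^ n) p) = f p := by
        intro n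
        induction n with
        | zero => simp
        | succ n ih => intro p; rw [pow_succ', Perm.mul_apply, hf, ih]
      refine ⟨Quotient.lift f (fun p q (h : π.SameCycle p q) => ?_), mem_univ _, rfl⟩
      obtain ⟨n, rfl⟩ := h.exists_nat_pow_eq
      exact (h1 n p).symm
  · have hcard : Fintype.card Q
        = π.cycleFactorsFinset.card + (univ.filter fun p => π p = p).card := by
      rw [← card_disjSum, ← card_univ]
      refine card_bij (fun q _ => Quotient.lift
        (fun p => if π p = p then (Sum.inr p : Perm P ⊕ P) else Sum.inl (π.cycleOf p))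
        (fun p q (h : π.SameCycle p q) => ?_) q) (fun q _ => ?_) (fun q _ q' _ h => ?_)
        (fun y hy => ?_)
      · by_cases hp : π p = p
        · have := h.eq_of_left hp
          subst this; rfl
        · have hq : ¬ π q = q := fun hq => hp (h.apply_eq_self_iff.2 hq)
          simp only [hp, hq, if_false]
          rw [h.cycleOf_eq]
      · induction q using Quotient.inductionOn with
        | h p =>
          by_cases hp : π p = p
          · simp [hp]
          · simp [hp, cycleOf_mem_cycleFactorsFinset_iff]
      · induction q using Quotient.inductionOn with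
        | h p =>
          induction q' using Quotient.inductionOn with
          | h p' =>
            apply Quotient.sound
            change π.SameCycle p p'
            by_cases hp : π p = p <;> by_cases hp' : π p' = p' <;>
              simp only [Quotient.lift_mk, hp, hp', if_true, if_false, Sum.inr.injEq, Sum.inl.injEq,
                reduceCtorEq] at h
            · rw [h]
            · have h1 : p' ∈ (π.cycleOf p').support := by
                rw [mem_support_cycleOf_iff]; exact ⟨SameCycle.refl _ _, mem_support.2 hp'⟩
              rw [← h, mem_support_cycleOf_iff] at h1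
              exact h1.1
      · rcases y with c | p
        · simp only [inl_mem_disjSum] at hy
          obtain ⟨p, hp⟩ := (mem_cycleFactorsFinset_iff.1 hy).1.nonempty_support
          have h1 : π p ≠ p := mem_support.1 (mem_cycleFactorsFinset_support_le hy hp)
          refine ⟨Quotient.mk _ p, mem_univ _, ?_⟩
          simp only [Quotient.lift_mk, h1, if_false]
          rw [← cycle_is_cycleOf hp hy]
        · simp only [inr_mem_disjSum, mem_filter, mem_univ, true_and] at hy
          exact ⟨Quotient.mk _ p, mem_univ _, by simp [hy]⟩
    have hs : π.support.card + (univ.filter fun p => π p = p).card = Fintype.card P := by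
      rw [← card_univ, ← card_filter_add_card_filter_not (s := univ) (fun p => π p = p), add_comm]
      congr 2
    rw [sign_of_cycleType, sum_cycleType, hcard, ← hs, cycleType_def]
    simp only [Multiset.card_map, card_val]
    push_cast
    generalize π.support.card = x
    generalize π.cycleFactorsFinset.card = y
    generalize (univ.filter fun p => π p = p).card = z
    rw [show x + z + (y + z) = x + y + 2 * z by ring, pow_add (-1 : ℤ) (x + y), pow_mul]
    simp

/-- A map with fibres of even size is preserved by a fixed-point-free involution. -/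
lemma exists_fpf {S V : Type} [Fintype S] [DecidableEq V] (vt : S → V)
    (h : ∀ v, Even (univ.filter fun s => vt s = v).card) :
    ∃ a : S → S, FPF a ∧ ∀ s, vt (a s) = vt s := by
  classical
  have h1 : ∀ v, ∃ a : {s // vt s = v} → {s // vt s = v}, FPF a := by
    intro v
    obtain ⟨k, hk⟩ := h v
    have hc : Fintype.card {s // vt s = v} = Fintype.card (Fin k × Bool) := by
      rw [Fintype.card_subtype, hk]; simp; ring
    let e := Fintype.equivOfCardEq hc
    refine ⟨fun s => e.symm ((e s).1, !(e s).2), fun s => by simp, fun s hs => ?_⟩
    have := congrArg (fun t => (e t).2) hs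
    simp at this
  choose a ha using h1
  have key : ∀ (v : V) (s : S) (hs : vt s = v), (a (vt s) ⟨s, rfl⟩).1 = (a v ⟨s, hs⟩).1 := by
    intro v s hs; subst hs; rfl
  refine ⟨fun s => (a (vt s) ⟨s, rfl⟩).1, ⟨fun s => ?_, fun s hs => ?_⟩, fun s => ?_⟩
  · rw [key (vt s) _ (a (vt s) ⟨s, rfl⟩).2]
    exact congrArg Subtype.val ((ha (vt s)).inv ⟨s, rfl⟩)
  · exact (ha (vt s)).ne ⟨s, rfl⟩ (Subtype.ext hs)
  · exact (a (vt s) ⟨s, rfl⟩).2

end Pool.Agent.P.MP_20b97f_co.Spin
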