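import Pool.Agent.P.MP_20b97f_co.Spin.Graph

/-!
The local computations for cables of width one and two, and the resulting covers.
-/

set_option autoImplicit false
set_option linter.unusedSectionVars false

namespace Pool.Agent.P.MP_20b97f_co.Spin

open Finset Equiv Pool.Agent.Flows Pool.Agent.Flows.MG

/-- Half the total spin of a cable of width two. -/
def jv3 (a : Bool → Bool) : ZMod 3 := if a false = a true then (if a false then 1 else -1) else 0

/-- A cable state of given spin. -/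
def sec3 (j : ZMod 3) : Bool → Bool := fun i => if j = 0 then i else j = 1

/-- Square root of the weight of a cable. -/
def r3 (j : ZMod 3) : ℤ√(-2) := if j = 0 then Zsqrtd.sqrtd else 1

/-- The spin of a cable of width one. -/
def jv2 (a : Unit → Bool) : ZMod 2 := if a () then 1 else 0

/-- A cable state of given spin. -/
def sec2 (j : ZMod 2) : Unit → Bool := fun _ => j = 1

/-- Square root of the weight of a cable. -/
def r2 (j : ZMod 2) : ℤ√(-1) := if j = 0 then Zsqrtd.sqrtd else 1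

variable {L H : Type} [Fintype L] [DecidableEq L] [Fintype H] [DecidableEq H]

lemma state_three (ρ : Perm (Om L H)) (h : ¬ 9 ∣ nf ρ 24 (fun _ => 0) univ) :
    ∑ γ : Om L H → Bool → Bool, (∏ o, cw (γ o)) *
      ((∏ w, lf (γ (ρ⁻¹ (Sum.inl w))) (γ (Sum.inl w))) *
        ∏ w, hf (γ (ρ⁻¹ (Sum.inr (w, false)))) (γ (Sum.inr (w, false)))
          (γ (ρ⁻¹ (Sum.inr (w, true)))) (γ (Sum.inr (w, true)))) ≠ 0 := by
  have h1 := state_tp ρ 3 (fun j => -j) neg_neg jv3 sec3 r3 2 4 ![-2, 3, 3] (by decide +kernel)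
    (by decide +kernel) (by decide +kernel) (by decide +kernel) (by decide +kernel)
  rw [Int.cast_injective h1]
  refine mul_ne_zero (by positivity) fun h0 => h ?_
  have h2 := tp_modEq ρ 24 3 ![-2, 3, 3] (u := 2) (a := 1) (b := 1) rfl rfl rfl rfl (by decide)
    (Or.inl (by decide)) univ (fun _ => 0) (fun _ _ => rfl) (Or.inl (by decide))
  rw [h0, zero_sub, dvd_neg, mul_comm,
    mul_dvd_mul_iff_left (by exact_mod_cast (nl_pos 3 _ _).ne')] at h2
  have h3 : IsCoprime ((3 : ℕ) ^ 2 : ℤ) (2 ^ (univ : Finset H).card) :=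
    IsCoprime.pow (by norm_num [Int.isCoprime_iff_gcd_eq_one])
  exact_mod_cast h3.dvd_of_dvd_mul_left h2

lemma state_two (ρ : Perm (Om L H)) (h : ¬ 4 ∣ nf ρ 24 (fun _ => 0) univ) :
    ∑ γ : Om L H → Unit → Bool, (∏ o, cw (γ o)) *
      ((∏ w, lf (γ (ρ⁻¹ (Sum.inl w))) (γ (Sum.inl w))) *
        ∏ w, hf (γ (ρ⁻¹ (Sum.inr (w, false)))) (γ (Sum.inr (w, false)))
          (γ (ρ⁻¹ (Sum.inr (w, true)))) (γ (Sum.inr (w, true)))) ≠ 0 := by
  have h1 := state_tp ρ 2 (fun j => j + 1) (by decide) jv2 sec2 r2 1 1 ![1, 0, -2]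
    (by decide +kernel) (by decide +kernel) (by decide +kernel) (by decide +kernel)
    (by decide +kernel)
  rw [Int.cast_injective h1]
  refine mul_ne_zero (by positivity) fun h0 => h ?_
  have h2 := tp_modEq ρ 24 2 ![1, 0, -2] (u := -1) (a := 0) (b := -1) rfl rfl rfl rfl (by decide)
    (Or.inr rfl) univ (fun _ => 0) (fun _ _ => rfl) (Or.inr fun _ => by decide)
  rw [h0, zero_sub, dvd_neg, mul_comm,
    mul_dvd_mul_iff_left (by exact_mod_cast (nl_pos 2 _ _).ne')] at h2
  have h3 : IsCoprime ((2 : ℕ) ^ 2 : ℤ) ((-1) ^ (univ : Finset H).card) :=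
    IsCoprime.pow (by norm_num [Int.isCoprime_iff_gcd_eq_one])
  exact_mod_cast h3.dvd_of_dvd_mul_left h2

variable {V E : Type} [Fintype V] [DecidableEq V] [Fintype E] [DecidableEq E]

lemma even_fibres (G : MG V E) (D : Finset E)
    (hD : ∀ v, Even ((D.filter fun e => G.en e false = v).card
      + (D.filter fun e => G.en e true = v).card)) (v : V) :
    Even (univ.filter fun s : {e // e ∈ D} × Bool => G.en s.1 s.2 = v).card := by
  convert hD v using 1
  rw [card_filter, Fintype.sum_prod_type_right, Fintype.sum_bool, add_comm, card_filter,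
    card_filter, ← sum_coe_sort D, ← sum_coe_sort D]

lemma nf_eq (G : MG V E) (D : Finset E) {o : E → Bool} {ρ : Perm (Om {e // e ∈ D} {e // e ∉ D})}
    (hρ : ∀ x, vt G D o (x, true) = vt G D o (ρ x, false))
    (hs : ∀ s t, vt G D o s = vt G D o t → Same (nu ρ) (al fun _ => 0) s t) (m : ℕ) [NeZero m] :
    nf ρ m (fun _ => 0) univ = Nat.card {φ : E → ZMod m // (∀ e, φ e = 0 ↔ e ∈ D) ∧
      ∀ X : Finset V, (∀ e ∈ D, G.en e false ∈ X ↔ G.en e true ∈ X) →
        ∑ e with G.en e false ∈ X, φ e = ∑ e with G.en e true ∈ X, φ e} := by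
  classical
  have hsum : ∀ (φ : E → ZMod m) (Q : E → Prop) [DecidablePred Q], (∀ e ∈ D, φ e = 0) →
      ∑ e with Q e, φ e = ∑ w : {e // e ∉ D} with Q w.1, φ w.1 := by
    intro φ Q _ h
    rw [sum_filter, sum_filter, ← sum_subtype (univ.filter fun e => e ∉ D) (by simp)
      (fun e => if Q e then φ e else 0)]
    refine (sum_subset (subset_univ _) fun e _ he => ?_).symm
    simp [h e (by simpa using he)]
  rw [Nat.card_eq_fintype_card, Fintype.card_subtype, nf]
  symm
  refine card_bij (fun φ _ => fun w => φ w.1) (fun φ hφ => ?_) (fun φ hφ ψ hψ h => ?_)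
    (fun ψ hψ => ?_)
  · simp only [mem_filter, mem_univ, true_and, iff_true] at hφ ⊢
    refine ⟨fun w h => w.2 ((hφ.1 _).1 h), (cons_iff G D hρ hs m _).2 fun X hX => ?_⟩
    rw [← hsum φ (fun e => G.en e false ∈ X) fun e he => (hφ.1 e).2 he,
      ← hsum φ (fun e => G.en e true ∈ X) fun e he => (hφ.1 e).2 he]
    exact hφ.2 X hX
  · simp only [mem_filter, mem_univ, true_and] at hφ hψ
    funext e
    by_cases he : e ∈ D
    · rw [(hφ.1 e).2 he, (hψ.1 e).2 he]
    · exact congrFun h ⟨e, he⟩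
  · simp only [mem_filter, mem_univ, true_and, iff_true] at hψ
    refine ⟨fun e => if he : e ∈ D then 0 else ψ ⟨e, he⟩, ?_, by funext w; simp [w.2]⟩
    simp only [mem_filter, mem_univ, true_and]
    refine ⟨fun e => by by_cases he : e ∈ D <;> simp [he, hψ.1], fun X hX => ?_⟩
    rw [hsum _ (fun e => G.en e false ∈ X) fun e he => by simp [he],
      hsum _ (fun e => G.en e true ∈ X) fun e he => by simp [he]]
    have e : ∀ w : {e // e ∉ D}, (if he : w.1 ∈ D then 0 else ψ ⟨w.1, he⟩) = ψ w :=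
      fun w => dif_neg w.2
    simp only [e]
    exact (cons_iff G D hρ hs m _).1 hψ.2 X hX

theorem cov_two_four (G : MG V E) (D : Finset E)
    (hD : ∀ v, Even ((D.filter fun e => G.en e false = v).card
      + (D.filter fun e => G.en e true = v).card))
    (hF : ¬ 36 ∣ Nat.card {φ : E → ZMod 24 // (∀ e, φ e = 0 ↔ e ∈ D) ∧
      ∀ X : Finset V, (∀ e ∈ D, G.en e false ∈ X ↔ G.en e true ∈ X) →
        ∑ e with G.en e false ∈ X, φ e = ∑ e with G.en e true ∈ X, φ e}) :
    (fun e => if e ∈ D then (2 : ℤ) else 4) ∈ G.Cov := by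
  obtain ⟨o, ρ, ho, hρ, hs⟩ := exists_rho G D (even_fibres G D hD)
  rw [← nf_eq G D hρ hs] at hF
  by_cases h9 : 9 ∣ nf ρ 24 (fun _ => 0) univ
  · have h4 : ¬ 4 ∣ nf ρ 24 (fun _ => 0) univ := fun h4 =>
      hF (Nat.Coprime.mul_dvd_of_dvd_of_dvd (by norm_num) h4 h9)
    have := cover_of_tp G D ho hρ (state_two ρ h4)
    convert add_mem this this using 1
    funext e
    by_cases he : e ∈ D <;> simp [he]
  · simpa using cover_of_tp G D ho hρ (state_three ρ h9)

end Pool.Agent.P.MP_20b97f_co.Spin
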