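import Pool.Agent.P.MP_20b97f_co.Spin.Invol

/-!
The chromatic evaluation of a spin network: a strand network with loop value `-2` that does not
vanish has a colouring of its loops in which the strands of every edge get distinct colours.
-/

set_option autoImplicit false
set_option linter.unusedSectionVars false

namespace Pool.Agent.P.MP_20b97f_co.Spin

open Finset Equiv Equiv.Perm

/-- The sign of a Boolean. -/
def sg (b : Bool) : ℤ := if b then 1 else -1

variable {P : Type} [Fintype P] [DecidableEq P]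

/-- `g` takes opposite values on the pairs `e (p, true)`, `e (p, false)`. -/
def Anti (e : Perm (P × Bool)) (g : P × Bool → Bool) : Prop :=
  ∀ p, g (e (p, true)) = !g (e (p, false))

/-- `f` takes equal values on the pairs `e (p, true)`, `e (p, false)`. -/
def Inv {X : Type} (e : Perm (P × Bool)) (f : P × Bool → X) : Prop :=
  ∀ p, f (e (p, true)) = f (e (p, false))

instance (e : Perm (P × Bool)) (g : P × Bool → Bool) : Decidable (Anti e g) := by
  unfold Anti; infer_instance

instance {X : Type} [DecidableEq X] (e : Perm (P × Bool)) (f : P × Bool → X) :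
    Decidable (Inv e f) := by
  unfold Inv; infer_instance

/-- The sign of an orientation with respect to a list of ordered pairs. -/
def wsg (e : Perm (P × Bool)) (g : P × Bool → Bool) : ℤ := ∏ p, sg (g (e (p, true)))

/-- Flipping the pairs on which `h` is false. -/
def flp (h : P → Bool) : Perm (P × Bool) :=
  prodCongrRight fun p => if h p then 1 else swap true false

lemma sign_flp (h : P → Bool) : (sign (flp h) : ℤ) = ∏ p, sg (h p) := by
  rw [flp, sign_prodCongrRight]
  push_cast
  refine prod_congr rfl fun p _ => ?_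
  cases h p <;> simp [sg]

lemma flp_apply (h : P → Bool) (p : P) (b : Bool) : flp h (p, b) = (p, b == h p) := by
  cases hp : h p <;> cases b <;> simp [flp, hp]

lemma anti_flp {e : Perm (P × Bool)} {g : P × Bool → Bool} (hg : Anti e g) (s : P × Bool) :
    g ((e * flp fun p => g (e (p, true))) s) = s.2 := by
  obtain ⟨p, b⟩ := s
  have := hg p
  rw [Perm.mul_apply, flp_apply]
  cases h1 : g (e (p, true)) <;> cases b <;> simp_all

lemma inv_flp {X : Type} (e : Perm (P × Bool)) (h : P → Bool) (f : P × Bool → X) :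
    Inv (e * flp h) f ↔ Inv e f := by
  refine forall_congr' fun p => ?_
  simp only [Perm.mul_apply, flp_apply]
  cases h p <;> simp [eq_comm]

lemma loops_sign {e₁ e₂ : Perm (P × Bool)} {g : P × Bool → Bool} (h₁ : Anti e₁ g)
    (h₂ : Anti e₂ g) :
    ∃ c : ℕ, (∀ (X : Type) [Fintype X] [DecidableEq X],
        (univ.filter fun f : P × Bool → X => Inv e₁ f ∧ Inv e₂ f).card = Fintype.card X ^ c) ∧
      wsg e₁ g * wsg e₂ g = sign e₁ * sign e₂ * (-1) ^ (Fintype.card P + c) := by
  classical
  set a := e₁ * flp fun p => g (e₁ (p, true)) with ha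
  set b := e₂ * flp fun p => g (e₂ (p, true)) with hb
  have ga : ∀ s, g (a s) = s.2 := anti_flp h₁
  have gb : ∀ s, g (b s) = s.2 := anti_flp h₂
  let m : Perm (P × Bool) := b⁻¹ * a
  have hm : ∀ s, (m s).2 = s.2 := by
    intro s
    rw [← gb (m s), ← ga s]
    simp [m]
  have hm' : ∀ s, (m⁻¹ s).2 = s.2 := by
    intro s
    rw [← hm (m⁻¹ s)]; simp
  let π : Bool → Perm P := fun c =>
    { toFun := fun p => (m (p, c)).1
      invFun := fun p => (m⁻¹ (p, c)).1
      left_inv := fun p => by
        have : ((m (p, c)).1, c) = m (p, c) := Prod.ext rfl (hm (p, c)).symm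
        simp only [this]; simp
      right_inv := fun p => by
        have : ((m⁻¹ (p, c)).1, c) = m⁻¹ (p, c) := Prod.ext rfl (hm' (p, c)).symm
        simp only [this]; simp }
  have hπ : m = prodCongrLeft π := by
    ext ⟨p, c⟩
    · rfl
    · exact hm (p, c)
  obtain ⟨c, hc, hs⟩ := cyc ((π true)⁻¹ * π false)
  refine ⟨c, fun X _ _ => ?_, ?_⟩
  · rw [← hc X]
    have hbm : ∀ q c, b (q, c) = a ((π c)⁻¹ q, c) := by
      intro q c
      have h1 : (((π c)⁻¹ q, c) : P × Bool) = m⁻¹ (q, c) := Prod.ext rfl (hm' (q, c)).symm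
      rw [h1]; simp [m]
    refine card_bij (fun f _ => fun p => f (a (p, true))) (fun f hf => ?_)
      (fun f hf f' hf' h => ?_) (fun f₀ hf => ?_)
    · simp only [mem_filter, mem_univ, true_and] at hf ⊢
      intro p
      have i1 : Inv a f := (inv_flp _ _ _).2 hf.1
      have i2 : Inv b f := (inv_flp _ _ _).2 hf.2
      have := i2 (π false p)
      rw [hbm, hbm] at this
      rw [Perm.mul_apply (π true)⁻¹, this, i1 p]; simp
    · simp only [mem_filter, mem_univ, true_and] at hf hf'
      have i1 : Inv a f := (inv_flp _ _ _).2 hf.1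
      have i2 : Inv a f' := (inv_flp _ _ _).2 hf'.1
      funext s
      obtain ⟨⟨p, c⟩, rfl⟩ := a.surjective s
      have := congrFun h p
      cases c
      · rw [← i1 p, ← i2 p]; exact this
      · exact this
    · simp only [mem_filter, mem_univ, true_and] at hf
      refine ⟨fun s => f₀ (a⁻¹ s).1, ?_, by funext p; simp⟩
      simp only [mem_filter, mem_univ, true_and]
      refine ⟨(inv_flp _ _ _).1 (show Inv a _ from fun p => by simp),
        (inv_flp _ _ _).1 (show Inv b _ from fun q => ?_)⟩
      have := hf ((π false)⁻¹ q)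
      simpa [hbm] using this
  · have h1 : (sign m : ℤ) = sign ((π true)⁻¹ * π false) := by
      rw [hπ, sign_prodCongrLeft]; simp
    have h2 : (sign m : ℤ) = sign e₂ * wsg e₂ g * (sign e₁ * wsg e₁ g) := by
      simp only [m, ha, hb, map_mul, sign_inv, Units.val_mul, sign_flp, wsg]
    rw [← hs, ← h1, h2]
    have u1 : (sign e₁ : ℤ) * sign e₁ = 1 := by
      rw [← Units.val_mul, Int.units_mul_self]; rfl
    have u2 : (sign e₂ : ℤ) * sign e₂ = 1 := by
      rw [← Units.val_mul, Int.units_mul_self]; rfl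
    linear_combination (-(wsg e₁ g * wsg e₂ g * (sign e₂ * sign e₂))) * u1
      - (wsg e₁ g * wsg e₂ g) * u2

lemma exists_anti (e₁ e₂ : Perm (P × Bool)) : ∃ g, Anti e₁ g ∧ Anti e₂ g := by
  have h : ∀ e : Perm (P × Bool), FPF fun s => e ((e⁻¹ s).1, !(e⁻¹ s).2) := by
    intro e
    refine ⟨fun s => by simp, fun s hs => ?_⟩
    have := congrArg (fun t => (e⁻¹ t).2) hs
    simp at this
  obtain ⟨g, g1, g2⟩ := orient (h e₁) (h e₂)
  refine ⟨g, fun p => ?_, fun p => ?_⟩
  · simpa using g1 (e₁ (p, false))
  · simpa using g2 (e₂ (p, false))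

/-- The value of a closed strand network at loop value `-2`. -/
lemma loops_value (e₁ e₂ : Perm (P × Bool)) :
    ∃ c : ℕ, (∀ N : ℕ,
        (univ.filter fun f : P × Bool → Fin N => Inv e₁ f ∧ Inv e₂ f).card = N ^ c) ∧
      ∑ g with Anti e₁ g ∧ Anti e₂ g, wsg e₁ g * wsg e₂ g
        = sign e₁ * (-1) ^ Fintype.card P * (sign e₂ * (-2) ^ c) := by
  classical
  obtain ⟨g₀, a1, a2⟩ := exists_anti e₁ e₂
  obtain ⟨c, hc, -⟩ := loops_sign a1 a2
  refine ⟨c, fun N => by simpa using hc (Fin N), ?_⟩
  have h1 : ∀ g ∈ univ.filter fun g => Anti e₁ g ∧ Anti e₂ g,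
      wsg e₁ g * wsg e₂ g = sign e₁ * sign e₂ * (-1) ^ (Fintype.card P + c) := by
    intro g hg
    simp only [mem_filter, mem_univ, true_and] at hg
    obtain ⟨c', hc', hs⟩ := loops_sign hg.1 hg.2
    have : c' = c := by
      have := (hc' Bool).symm.trans (hc Bool)
      exact Nat.pow_right_injective (by simp) this
    rw [hs, this]
  have h2 : (univ.filter fun g => Anti e₁ g ∧ Anti e₂ g).card = 2 ^ c := by
    have := hc Bool
    rw [Fintype.card_bool] at this
    rw [← this]
    refine card_bij (fun g _ => fun s => xor (g s) (g₀ s)) (fun g hg => ?_)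
      (fun g _ g' _ h => ?_) (fun f hf => ?_)
    · simp only [mem_filter, mem_univ, true_and] at hg ⊢
      exact ⟨fun p => by simp [hg.1 p, a1 p], fun p => by simp [hg.2 p, a2 p]⟩
    · funext s
      simpa using congrFun h s
    · simp only [mem_filter, mem_univ, true_and] at hf
      refine ⟨fun s => xor (f s) (g₀ s), ?_, by funext s; simp⟩
      simp only [mem_filter, mem_univ, true_and]
      exact ⟨fun p => by simp [hf.1 p, a1 p], fun p => by simp [hf.2 p, a2 p]⟩
  rw [sum_congr rfl h1, sum_const, h2, nsmul_eq_mul]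
  push_cast
  rw [show (-2 : ℤ) = -1 * 2 by norm_num, mul_pow, pow_add]
  ring

/-- The strands join the tail end of `p` to the head end of `σ p`. -/
def strands (σ : Perm P) : Perm (P × Bool) := prodCongrLeft fun b => if b then σ else 1

lemma strands_true (σ : Perm P) (p : P) : strands σ (p, true) = (σ p, true) := rfl

lemma strands_false (σ : Perm P) (p : P) : strands σ (p, false) = (p, false) := rfl

lemma sign_strands (σ : Perm P) : sign (strands σ) = sign σ := by
  rw [strands, sign_prodCongrLeft]; simp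

/-- Chromatic evaluation. -/
theorem penrose {ι E : Type} [Fintype ι] (ε : P → E) (e : Perm (P × Bool)) (σ : ι → Perm P)
    (hσ : ∀ p q, p ≠ q → ε p = ε q →
      ∃ T : ι → ι, (∀ i, T (T i) = i) ∧ ∀ i, σ (T i) = σ i * swap p q)
    (hZ : ∑ i, ∑ g with Anti e g ∧ Anti (strands (σ i)) g, wsg e g * wsg (strands (σ i)) g ≠ 0) :
    ∃ (N : ℕ) (f : P × Bool → Fin N) (i : ι), Inv e f ∧ (∀ p, f (σ i p, true) = f (p, false)) ∧
      ∀ p q, ε p = ε q → f (p, false) = f (q, false) → p = q := by
  classical
  by_contra hno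
  push Not at hno
  choose c hc hv using fun i => loops_value e (strands (σ i))
  simp only [hv, sign_strands, ← mul_sum] at hZ
  have hZ' : ∑ i, (sign (σ i) : ℤ) * (-2) ^ c i ≠ 0 := right_ne_zero_of_mul hZ
  have hN : ∀ N : ℕ, ∑ i, (sign (σ i) : ℤ) * (N : ℤ) ^ c i = 0 := by
    intro N
    have h1 : ∀ i, (N : ℤ) ^ c i
        = ∑ f : P × Bool → Fin N, if Inv e f ∧ Inv (strands (σ i)) f then 1 else 0 := by
      intro i
      rw [sum_boole, hc i N]; simp
    simp only [h1, mul_sum]
    rw [sum_comm]
    refine sum_eq_zero fun f _ => ?_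
    by_cases hf : ∃ i, Inv e f ∧ Inv (strands (σ i)) f
    swap
    · push Not at hf
      refine sum_eq_zero fun i _ => ?_
      rw [if_neg (fun h => hf i h.1 h.2), mul_zero]
    obtain ⟨i₀, f1, f2⟩ := hf
    obtain ⟨p, q, h2, h3, h4⟩ := hno N f i₀ f1 f2
    obtain ⟨T, hT, hT'⟩ := hσ p q h4 h2
    have hsw : ∀ x, f (swap p q x, false) = f (x, false) := by
      intro x
      rw [swap_apply_def]
      split_ifs with a b
      · rw [a, h3]
      · rw [b, h3]
      · rfl
    have hiff : ∀ i, Inv (strands (σ (T i))) f ↔ Inv (strands (σ i)) f := by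
      intro i
      simp only [Inv, strands_true, strands_false, hT', Perm.mul_apply]
      refine ⟨fun h x => ?_, fun h x => ?_⟩
      · have := h (swap p q x)
        rwa [swap_apply_self, hsw] at this
      · rw [h, hsw]
    let T' : Perm ι := Function.Involutive.toPerm T hT
    have h5 := Equiv.sum_comp T'
      (fun i => (sign (σ i) : ℤ) * if Inv e f ∧ Inv (strands (σ i)) f then 1 else 0)
    have h6 : ∀ i, ((sign (σ (T' i)) : ℤ) * if Inv e f ∧ Inv (strands (σ (T' i))) f then 1 else 0)
        = -((sign (σ i) : ℤ) * if Inv e f ∧ Inv (strands (σ i)) f then 1 else 0) := by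
      intro i
      change ((sign (σ (T i)) : ℤ) * if Inv e f ∧ Inv (strands (σ (T i))) f then 1 else 0) = _
      simp only [hiff]
      rw [hT', map_mul, sign_swap h4]
      split_ifs <;> simp
    simp only [h6, sum_neg_distrib] at h5
    linarith
  set Z := ∑ i, (sign (σ i) : ℤ) * (-2) ^ c i with hZdef
  have hmod : (0 : ℤ) ≡ Z [ZMOD ((Z.natAbs + 1 : ℕ) + 2 : ℤ)] := by
    rw [← hN (Z.natAbs + 1), hZdef]
    refine Int.ModEq.sum fun i _ => Int.ModEq.mul_left _ (Int.ModEq.pow _ ?_)
    rw [Int.modEq_iff_dvd, ← hZdef]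
    exact ⟨-1, by ring⟩
  have hd := Int.natAbs_le_of_dvd_ne_zero (Int.modEq_iff_dvd.1 hmod) (by simpa using hZ')
  omega

end Pool.Agent.P.MP_20b97f_co.Spin
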