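import Pool.Agent.P.MP_20b97f_co.Spin.Penrose

/-!
Changing two pairs of a perfect matching merges two loops, splits a loop or reverses a segment.
-/

set_option autoImplicit false
set_option linter.unusedSectionVars false

namespace Pool.Agent.P.MP_20b97f_co.Spin

open Finset

variable {S : Type} [Fintype S] [DecidableEq S]

/-- `f` is constant on the loops formed by `ν` and `a`. -/
def Iv {X : Type} (ν a : S → S) (f : S → X) : Prop := (∀ s, f (ν s) = f s) ∧ ∀ s, f (a s) = f s

instance {X : Type} [DecidableEq X] (ν a : S → S) (f : S → X) : Decidable (Iv ν a f) := by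
  unfold Iv; infer_instance

/-- `g` orients the loops formed by `ν` and `a`. -/
def Ori (ν a : S → S) (g : S → Bool) : Prop := (∀ s, g (ν s) = !g s) ∧ ∀ s, g (a s) = !g s

/-- `u` and `v` lie on the same loop. -/
def Same (ν a : S → S) (u v : S) : Prop := ∀ h : S → ℤ, Iv ν a h → h u = h v

/-- The pairs `u u'`, `v v'` of `a` are replaced by the pairs `u v`, `u' v'` of `a'`. -/
structure Repair (a a' : S → S) (u u' v v' : S) : Prop where
  fa : FPF a
  fa' : FPF a'
  au : a u = u'
  av : a v = v'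
  bu : a' u = v
  bu' : a' u' = v'
  ne : u ≠ v'
  off : ∀ s, s ≠ u → s ≠ u' → s ≠ v → s ≠ v' → a' s = a s

variable {ν a a' a'' : S → S} {u u' v v' : S}

lemma Same.eq {X : Type} (h : Same ν a u v) {f : S → X} (hf : Iv ν a f) : f u = f v := by
  classical
  have := h (fun s => if f s = f u then 1 else 0)
    ⟨fun s => by simp only [hf.1 s], fun s => by simp only [hf.2 s]⟩
  by_contra hne
  simp [Ne.symm hne] at this

lemma exists_sep (h : ¬ Same ν a u v) : ∃ h : S → ℤ, Iv ν a h ∧ h u = 1 ∧ h v = 0 := by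
  classical
  unfold Same at h
  push Not at h
  obtain ⟨f, hf, hne⟩ := h
  exact ⟨fun s => if f s = f u then 1 else 0,
    ⟨fun s => by simp only [hf.1 s], fun s => by simp only [hf.2 s]⟩, by simp, by simp [hne.symm]⟩

namespace Repair

lemma au' (r : Repair a a' u u' v v') : a u' = u := by rw [← r.au, r.fa.inv]
lemma av' (r : Repair a a' u u' v v') : a v' = v := by rw [← r.av, r.fa.inv]
lemma bv (r : Repair a a' u u' v v') : a' v = u := by rw [← r.bu, r.fa'.inv]
lemma bv' (r : Repair a a' u u' v v') : a' v' = u' := by rw [← r.bu', r.fa'.inv]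

lemma symm (r : Repair a a' u u' v v') : Repair a' a u v u' v' :=
  ⟨r.fa', r.fa, r.bu, r.bu', r.au, r.av, r.ne, fun s a b c d => (r.off s a c b d).symm⟩

lemma all {Q : S → Prop} (h1 : Q u) (h2 : Q u') (h3 : Q v) (h4 : Q v')
    (h : ∀ s, s ≠ u → s ≠ u' → s ≠ v → s ≠ v' → Q s) (s : S) : Q s := by
  by_cases a : s = u
  · rwa [a]
  by_cases b : s = u'
  · rwa [b]
  by_cases c : s = v
  · rwa [c]
  by_cases d : s = v'
  · rwa [d]
  exact h s a b c d

lemma iv_of {X : Type} (r : Repair a a' u u' v v') {f : S → X} (hf : Iv ν a f) (h : f u = f v) :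
    Iv ν a' f := by
  have h1 : f u' = f u := by rw [← r.au, hf.2]
  have h2 : f v' = f v := by rw [← r.av, hf.2]
  refine ⟨hf.1, all (u := u) (u' := u') (v := v) (v' := v') ?_ ?_ ?_ ?_ fun s a b c d => ?_⟩
  · rw [r.bu, h]
  · rw [r.bu', h1, h2, h]
  · rw [r.bv, h]
  · rw [r.bv', h1, h2, h]
  · rw [r.off s a b c d, hf.2]

lemma ori_of (r : Repair a a' u u' v v') {g : S → Bool} (hg : Ori ν a g) (h : g v = !g u) :
    Ori ν a' g := by
  have h1 : g u' = !g u := by rw [← r.au, hg.2]
  have h2 : g v' = !g v := by rw [← r.av, hg.2]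
  refine ⟨hg.1, all (u := u) (u' := u') (v := v) (v' := v') ?_ ?_ ?_ ?_ fun s a b c d => ?_⟩
  · rw [r.bu, h]
  · rw [r.bu', h1, h2, h]
  · rw [r.bv, h]; simp
  · rw [r.bv', h1, h2, h]; simp
  · rw [r.off s a b c d, hg.2]

lemma key (r : Repair a a' u u' v v') (hν : FPF ν) {g : S → Bool} (hg : Ori ν a g) {F : S → ℤ}
    (h1 : ∀ s, F (ν s) = F s) (h2 : ∀ s, s ≠ u → s ≠ u' → s ≠ v → s ≠ v' → F (a s) = F s) :
    sg (g u) * (F u - F u') + sg (g v) * (F v - F v') = 0 := by
  have sgn : ∀ b, sg (!b) = -sg b := by decide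
  have e1 : ∑ s, sg (g s) * F s = 0 := by
    have := Equiv.sum_comp (Function.Involutive.toPerm ν hν.inv) (fun s => sg (g s) * F s)
    simp only [Function.Involutive.coe_toPerm, hg.1, h1, sgn, neg_mul, sum_neg_distrib] at this
    linarith
  have e2 : ∑ s, sg (g s) * F (a s) = 0 := by
    have := Equiv.sum_comp (Function.Involutive.toPerm a r.fa.inv) (fun s => sg (g s) * F s)
    simp only [Function.Involutive.coe_toPerm, hg.2, sgn, neg_mul, sum_neg_distrib] at this
    linarith
  have e3 : ∑ s, sg (g s) * (F s - F (a s)) = 0 := by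
    simp only [mul_sub, sum_sub_distrib, e1, e2, sub_zero]
  have n1 : u ≠ u' := fun h => r.fa.ne u (r.au.trans h.symm)
  have n2 : u ≠ v := fun h => r.fa'.ne u (r.bu.trans h.symm)
  have n3 : u' ≠ v' := fun h => r.fa'.ne u' (r.bu'.trans h.symm)
  have n4 : v ≠ v' := fun h => r.fa.ne v (r.av.trans h.symm)
  have n5 : u' ≠ v := fun h => r.ne (by rw [← r.au', h, r.av])
  have n6 := r.ne
  rw [← sum_subset (subset_univ ({u, u', v, v'} : Finset S)) (fun s _ hs => by
    simp only [mem_insert, mem_singleton, not_or] at hs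
    rw [h2 s hs.1 hs.2.1 hs.2.2.1 hs.2.2.2]; simp)] at e3
  rw [sum_insert (by simp [n1, n2, n6]), sum_insert (by simp [n3, n5]), sum_pair n4,
    r.au, r.av, r.au', r.av'] at e3
  have g1 : g u' = !g u := by rw [← r.au, hg.2]
  have g2 : g v' = !g v := by rw [← r.av, hg.2]
  rw [g1, g2, sgn, sgn] at e3
  linarith

lemma iv_back {X : Type} (r : Repair a a' u u' v v') {f : S → X} (hf : Iv ν a' f)
    (h : f u = f u') : Iv ν a f ∧ f u = f v :=
  ⟨r.symm.iv_of hf h, by rw [← r.bu, hf.2]⟩

lemma sg_ne (b : Bool) : sg b ≠ 0 := by revert b; decide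

/-- Two different loops are merged. -/
lemma merge {X : Type} (r : Repair a a' u u' v v') (hν : FPF ν) (hs : ¬ Same ν a u v)
    (f : S → X) : Iv ν a' f ↔ Iv ν a f ∧ f u = f v := by
  classical
  refine ⟨fun hf => r.iv_back hf ?_, fun hf => r.iv_of hf.1 hf.2⟩
  obtain ⟨h, hh, h1, h0⟩ := exists_sep hs
  obtain ⟨g, hg⟩ := orient hν r.fa
  have := r.key hν hg (F := fun s => h s * if f s = f u then 1 else 0)
    (fun s => by simp only [hh.1, hf.1])
    (fun s a b c d => by rw [hh.2, ← r.off s a b c d, hf.2])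
  have h2 : h u' = 1 := by rw [← r.au, hh.2, h1]
  have h3 : h v' = 0 := by rw [← r.av, hh.2, h0]
  by_contra hne
  simp [h1, h0, h2, h3, Ne.symm hne, sg_ne] at this

/-- A segment of a loop is reversed. -/
lemma rev {X : Type} (r : Repair a a' u u' v v') (hν : FPF ν) (hs : Same ν a u v)
    {g : S → Bool} (hg : Ori ν a g) (huv : g u = g v) (f : S → X) : Iv ν a' f ↔ Iv ν a f := by
  classical
  refine ⟨fun hf => (r.iv_back hf ?_).1, fun hf => r.iv_of hf (hs.eq hf)⟩
  have := r.key hν hg (F := fun s => if f s = f u then 1 else 0)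
    (fun s => by simp only [hf.1]) (fun s a b c d => by rw [← r.off s a b c d, hf.2])
  have h2 : f v = f u := by rw [← r.bu, hf.2]
  have h3 : f v' = f u' := by rw [← r.bu', hf.2]
  by_contra hne
  simp [h2, h3, Ne.symm hne, sg_ne, huv] at this

/-- A loop is split. -/
lemma split (r : Repair a a' u u' v v') (r' : Repair a a'' u u' v' v) (hν : FPF ν)
    (hs : Same ν a u v) {g : S → Bool} (hg : Ori ν a g) (huv : g v = !g u) :
    ¬ Same ν a' u u' := by
  intro hs'
  obtain ⟨k, hk⟩ := orient hν r'.fa'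
  have hk' : Ori ν a'' k := hk
  have xo : ∀ {b : S → S}, Ori ν b g → Ori ν b k → Iv ν b fun s => xor (g s) (k s) :=
    fun h1 h2 => ⟨fun s => by simp [h1.1 s, h2.1 s], fun s => by simp [h1.2 s, h2.2 s]⟩
  have k1 : k v' = !k u := by rw [← r'.bu, hk.2]
  have k2 : k v = !k u' := by rw [← r'.bu', hk.2]
  have g1 : g u' = !g u := by rw [← r.au, hg.2]
  by_cases hc : k u' = !k u
  · have := hs.eq (xo hg (r'.symm.ori_of hk' hc))
    simp only [huv, k2, hc] at this
    revert this; cases g u <;> cases k u <;> simp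
  · have hc' : k u' = k u := by revert hc; cases k u' <;> cases k u <;> simp
    have : Ori ν a' k := by
      refine ⟨hk.1, all (u := u) (u' := u') (v := v) (v' := v') ?_ ?_ ?_ ?_ fun s a b c d => ?_⟩
      · rw [r.bu, k2, hc']
      · rw [r.bu', k1, hc']
      · rw [r.bv, k2, hc']; simp
      · rw [r.bv', k1, hc']; simp
      · rw [r.off s a b c d, ← r'.off s a b d c, hk.2]
    have := hs'.eq (xo (r.ori_of hg huv) this)
    simp only [g1, hc'] at this
    revert this; cases g u <;> cases k u <;> simp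

end Repair

/-- The number of colourings of the loops by `q` colours. -/
def nl (q : ℕ) [NeZero q] (ν a : S → S) : ℕ := (univ.filter fun f : S → ZMod q => Iv ν a f).card

lemma nl_pos (q : ℕ) [NeZero q] (ν a : S → S) : 0 < nl q ν a :=
  card_pos.2 ⟨0, by simp [Iv]⟩

lemma Repair.nl_merge (q : ℕ) [NeZero q] (r : Repair a a' u u' v v') (hν : FPF ν)
    (hs : ¬ Same ν a u v) : nl q ν a = q * nl q ν a' := by
  obtain ⟨h, hh, h1, h0⟩ := exists_sep hs
  unfold nl
  have hq : ((univ : Finset (ZMod q)) ×ˢ univ.filter fun f : S → ZMod q => Iv ν a' f).card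
      = q * (univ.filter fun f : S → ZMod q => Iv ν a' f).card := by
    rw [card_product, card_univ, ZMod.card]
  rw [← hq]
  symm
  refine card_bij (fun x _ => fun s => x.2 s + x.1 * (h s : ZMod q)) (fun x hx => ?_)
    (fun x hx y hy hxy => ?_) (fun f hf => ?_)
  · simp only [mem_product, mem_filter, mem_univ, true_and, r.merge hν hs] at hx ⊢
    exact ⟨fun s => by simp only [hx.1.1, hh.1], fun s => by simp only [hx.1.2, hh.2]⟩
  · simp only [mem_product, mem_filter, mem_univ, true_and, r.merge hν hs] at hx hy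
    have e1 := congrFun hxy u
    have e2 := congrFun hxy v
    simp only [h1, h0, Int.cast_one, mul_one, Int.cast_zero, mul_zero, add_zero] at e1 e2
    have e3 : x.1 = y.1 := by rw [hx.2, hy.2, e2] at e1; exact add_left_cancel e1
    refine Prod.ext e3 (funext fun s => ?_)
    have := congrFun hxy s
    simp only [e3] at this
    exact add_right_cancel this
  · simp only [mem_filter, mem_univ, true_and] at hf
    refine ⟨(f u - f v, fun s => f s - (f u - f v) * (h s : ZMod q)), ?_, by funext s; simp⟩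
    simp only [mem_product, mem_filter, mem_univ, true_and, r.merge hν hs]
    refine ⟨⟨fun s => by simp only [hf.1, hh.1], fun s => by simp only [hf.2, hh.2]⟩, ?_⟩
    simp [h1, h0]

end Pool.Agent.P.MP_20b97f_co.Spin
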