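import Pool.Agent.P.MP_20b97f_co.Spin.Trans

/-!
The state sum of the strand network with cables of width `K`, and its reduction to a transition
polynomial.
-/

set_option autoImplicit false
set_option linter.unusedSectionVars false

namespace Pool.Agent.P.MP_20b97f_co.Spin

open Finset Equiv

variable {L H K : Type} [Fintype L] [DecidableEq L] [Fintype H] [DecidableEq H]
  [Fintype K] [DecidableEq K]

/-- Change between edge coordinates and vertex coordinates of strand ends. -/
def bt : (Om L H × K) × Bool → (Om L H × K) × Bool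
  | ((Sum.inl w, i), b) => ((Sum.inl w, i), b)
  | ((Sum.inr (w, d), i), b) => ((Sum.inr (w, b), i), d)

lemma bt_bt (s : (Om L H × K) × Bool) : bt (bt s) = s := by
  obtain ⟨⟨w | ⟨w, d⟩, i⟩, b⟩ := s <;> rfl

/-- The pairing of the strand ends at the vertices. -/
def ev (ρ : Perm (Om L H)) : Perm ((Om L H × K) × Bool) :=
  Function.Involutive.toPerm bt bt_bt *
    prodCongrLeft fun b => if b then 1 else prodCongr ρ (Equiv.refl K)

lemma ev_true (ρ : Perm (Om L H)) (p : Om L H × K) : ev ρ (p, true) = bt (p, true) := rfl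

lemma ev_false (ρ : Perm (Om L H)) (p : Om L H × K) :
    ev ρ (p, false) = bt ((ρ p.1, p.2), false) := rfl

/-- Permutations of the strands of every edge. -/
def sig (x : (L → Perm K) × (H → Perm (Bool × K))) : Perm (Om L H × K) where
  toFun
    | (Sum.inl w, i) => (Sum.inl w, x.1 w i)
    | (Sum.inr (w, d), i) => (Sum.inr (w, (x.2 w (d, i)).1), (x.2 w (d, i)).2)
  invFun
    | (Sum.inl w, i) => (Sum.inl w, (x.1 w).symm i)
    | (Sum.inr (w, d), i) => (Sum.inr (w, ((x.2 w).symm (d, i)).1), ((x.2 w).symm (d, i)).2)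
  left_inv := by rintro ⟨w | ⟨w, d⟩, i⟩ <;> simp
  right_inv := by rintro ⟨w | ⟨w, d⟩, i⟩ <;> simp

/-- The edge of a strand. -/
def edge : Om L H × K → L ⊕ H
  | (Sum.inl w, _) => Sum.inl w
  | (Sum.inr (w, _), _) => Sum.inr w

lemma edge_sig (x : (L → Perm K) × (H → Perm (Bool × K))) (p : Om L H × K) :
    edge (sig x p) = edge p := by
  obtain ⟨w | ⟨w, d⟩, i⟩ := p <;> rfl

lemma sig_swap (p q : Om L H × K) (h : edge p = edge q) :
    ∃ T : (L → Perm K) × (H → Perm (Bool × K)) → (L → Perm K) × (H → Perm (Bool × K)),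
      (∀ x, T (T x) = x) ∧ ∀ x, sig (T x) = sig x * swap p q := by
  obtain ⟨w | ⟨w, d⟩, i⟩ := p <;> obtain ⟨w' | ⟨w', d'⟩, i'⟩ := q <;>
    simp only [edge, Sum.inl.injEq, Sum.inr.injEq, reduceCtorEq] at h <;> subst h
  · refine ⟨fun x => (Function.update x.1 w (x.1 w * swap i i'), x.2), fun x => by
      simp [mul_assoc], fun x => Equiv.ext ?_⟩
    rintro ⟨v | ⟨v, c⟩, k⟩
    · by_cases hv : v = w
      · subst hv
        simp only [Perm.mul_apply, swap_apply_def, Prod.mk.injEq, true_and]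
        split_ifs with a b
        · simp [sig, a]
        · simp [sig, b]
        · simp [sig, swap_apply_of_ne_of_ne a b]
      · rw [Perm.mul_apply, swap_apply_of_ne_of_ne (by simp [hv]) (by simp [hv])]
        simp [sig, hv]
    · rw [Perm.mul_apply, swap_apply_of_ne_of_ne (by simp) (by simp)]
      rfl
  · refine ⟨fun x => (x.1, Function.update x.2 w (x.2 w * swap (d, i) (d', i'))), fun x => by
      simp [mul_assoc], fun x => Equiv.ext ?_⟩
    rintro ⟨v | ⟨v, c⟩, k⟩
    · rw [Perm.mul_apply, swap_apply_of_ne_of_ne (by simp) (by simp)]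
      rfl
    · by_cases hv : v = w
      · subst hv
        by_cases a : (c, k) = (d, i)
        · obtain ⟨rfl, rfl⟩ := Prod.mk.inj a
          simp [sig]
        by_cases b : (c, k) = (d', i')
        · obtain ⟨rfl, rfl⟩ := Prod.mk.inj b
          simp [sig]
        rw [Perm.mul_apply, swap_apply_of_ne_of_ne (by simpa using a) (by simpa using b)]
        simp [sig, swap_apply_of_ne_of_ne a b]
      · rw [Perm.mul_apply, swap_apply_of_ne_of_ne (by simp [hv]) (by simp [hv])]
        simp [sig, hv]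

/-- Weight of a cable. -/
def cw (a : K → Bool) : ℤ := ∏ i, sg (a i)

/-- Weight of a light edge. -/
def lf (a b : K → Bool) : ℤ := (∑ s : Perm K, if ∀ i, b (s i) = a i then 1 else 0) * ∏ i, sg (b i)

/-- States of the strand ends at one end of a heavy edge. -/
def hd (a b : K → Bool) (t : Bool × K) : Bool := if t.1 then b t.2 else !a t.2

/-- Weight of a heavy edge. -/
def hf (a b a' b' : K → Bool) : ℤ :=
  (∑ s : Perm (Bool × K), if ∀ t, hd a' b' (s t) = !hd a b t then 1 else 0) * ∏ t, sg (hd a' b' t)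

/-- The orientation of the strand ends given by states of the cables. -/
def lift (ρ : Perm (Om L H)) (γ : Om L H → K → Bool) (s : (Om L H × K) × Bool) : Bool :=
  hd (γ (ρ⁻¹ (bt s).1.1)) (γ (bt s).1.1) ((bt s).2, (bt s).1.2)

lemma state (ρ : Perm (Om L H)) :
    ∑ x : (L → Perm K) × (H → Perm (Bool × K)),
      ∑ g with Anti (ev ρ) g ∧ Anti (strands (sig x)) g, wsg (ev ρ) g * wsg (strands (sig x)) g
    = ∑ γ : Om L H → K → Bool, (∏ o, cw (γ o)) *
      ((∏ w, lf (γ (ρ⁻¹ (Sum.inl w))) (γ (Sum.inl w))) *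
        ∏ w, hf (γ (ρ⁻¹ (Sum.inr (w, false)))) (γ (Sum.inr (w, false)))
          (γ (ρ⁻¹ (Sum.inr (w, true)))) (γ (Sum.inr (w, true)))) := by
  have l1 : ∀ (γ : Om L H → K → Bool) p, lift ρ γ (ev ρ (p, true)) = γ p.1 p.2 := by
    intro γ p; simp [lift, ev_true, bt_bt, hd]
  have l2 : ∀ (γ : Om L H → K → Bool) p, lift ρ γ (ev ρ (p, false)) = !γ p.1 p.2 := by
    intro γ p; simp [lift, ev_false, bt_bt, hd]
  have h1 : ∀ x : (L → Perm K) × (H → Perm (Bool × K)),
      ∑ g with Anti (ev ρ) g ∧ Anti (strands (sig x)) g, wsg (ev ρ) g * wsg (strands (sig x)) g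
      = ∑ γ : Om L H → K → Bool, if Anti (strands (sig x)) (lift ρ γ) then
          wsg (ev ρ) (lift ρ γ) * wsg (strands (sig x)) (lift ρ γ) else 0 := by
    intro x
    rw [← sum_filter]
    symm
    refine sum_bij (fun γ _ => lift ρ γ) (fun γ hγ => ?_) (fun γ _ γ' _ h => ?_) (fun g hg => ?_)
      (fun _ _ => rfl)
    · simp only [mem_filter, mem_univ, true_and] at hγ ⊢
      exact ⟨fun p => by rw [l1, l2]; simp, hγ⟩
    · funext o i
      rw [← l1 γ (o, i), h, l1]
    · simp only [mem_filter, mem_univ, true_and] at hg ⊢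
      have : lift ρ (fun o i => g (ev ρ ((o, i), true))) = g := by
        funext s
        obtain ⟨⟨p, b⟩, rfl⟩ := (ev ρ).surjective s
        cases b
        · rw [l2, hg.1 p]; simp
        · rw [l1]
      exact ⟨fun o i => g (ev ρ ((o, i), true)), by rw [this]; exact hg.2, this⟩
  simp only [h1]
  rw [sum_comm]
  refine sum_congr rfl fun γ _ => ?_
  have w1 : wsg (ev ρ) (lift ρ γ) = ∏ o, cw (γ o) := by
    simp only [wsg, l1, cw, Fintype.prod_prod_type]
  have w2 : ∀ x : (L → Perm K) × (H → Perm (Bool × K)), wsg (strands (sig x)) (lift ρ γ)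
      = (∏ w, ∏ i, sg (γ (Sum.inl w) i)) *
        ∏ w, ∏ t, sg (hd (γ (ρ⁻¹ (Sum.inr (w, true)))) (γ (Sum.inr (w, true))) t) := by
    intro x
    simp only [wsg, strands_true]
    rw [Equiv.prod_comp (sig x) (fun p => sg (lift ρ γ (p, true)))]
    simp only [Fintype.prod_prod_type, Fintype.prod_sum_type]
    rfl
  have w3 : ∀ x : (L → Perm K) × (H → Perm (Bool × K)),
      (if Anti (strands (sig x)) (lift ρ γ) then (1 : ℤ) else 0)
      = (∏ w, if ∀ i, γ (Sum.inl w) (x.1 w i) = γ (ρ⁻¹ (Sum.inl w)) i then 1 else 0) *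
        ∏ w, if ∀ t, hd (γ (ρ⁻¹ (Sum.inr (w, true)))) (γ (Sum.inr (w, true))) (x.2 w t)
          = !hd (γ (ρ⁻¹ (Sum.inr (w, false)))) (γ (Sum.inr (w, false))) t then 1 else 0 := by
    intro x
    simp only [Fintype.prod_boole, ite_zero_mul_ite_zero, mul_one]
    refine if_congr ?_ rfl rfl
    simp only [Anti, strands_true, strands_false, Prod.forall, Sum.forall]
    refine and_congr (forall_congr' fun w => forall_congr' fun i => ?_) Iff.rfl
    simp [sig, lift, bt, hd]
  have w4 : ∀ (c : Prop) [Decidable c] (a b : ℤ),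
      (if c then a * b else 0) = a * ((if c then 1 else 0) * b) := by
    intro c _ a b; split_ifs <;> simp
  simp only [w4, w1, w2, w3, ← mul_sum, lf, hf, prod_mul_distrib, ← sum_mul]
  have e : ∀ X A B W1 W2 C : ℤ, X = A * B → C * (X * (W1 * W2)) = C * (A * W1 * (B * W2)) := by
    rintro X A B W1 W2 C rfl; ring
  refine e _ _ _ _ _ _ ?_
  rw [prod_univ_sum, prod_univ_sum, Fintype.piFinset_univ, Fintype.piFinset_univ, sum_mul_sum,
    Fintype.sum_prod_type]

/-- The three transitions at a heavy edge. -/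
def cond {J : Type} (neg : J → J) (y : Fin 3) (a b a' b' : J) : Prop :=
  if y = 0 then a = b ∧ a' = b' else if y = 1 then b' = neg b ∧ a' = neg a else a' = b ∧ b' = a

instance {J : Type} [DecidableEq J] (neg : J → J) (y : Fin 3) (a b a' b' : J) :
    Decidable (cond neg y a b a' b') := by
  unfold cond; infer_instance

lemma card_cond (ρ : Perm (Om L H)) (q : ℕ) [NeZero q] (neg : ZMod q → ZMod q)
    (hn : ∀ j, neg (neg j) = j) (τ : H → Fin 3) :
    (univ.filter fun j : Om L H → ZMod q => (∀ w, j (ρ⁻¹ (Sum.inl w)) = j (Sum.inl w)) ∧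
      ∀ w, cond neg (τ w) (j (ρ⁻¹ (Sum.inr (w, false)))) (j (Sum.inr (w, false)))
        (j (ρ⁻¹ (Sum.inr (w, true)))) (j (Sum.inr (w, true)))).card = nl q (nu ρ) (al τ) := by
  obtain ⟨g, g1, g2⟩ := orient (fpf_nu ρ) (fpf_al (L := L) τ)
  let tw : Bool → ZMod q → ZMod q := fun b j => if b then j else neg j
  have t1 : ∀ b j, tw b (tw b j) = j := by intro b j; cases b <;> simp [tw, hn]
  have t2 : ∀ b j, tw (!b) (neg j) = tw b j := by intro b j; cases b <;> simp [tw, hn]
  have t3 : ∀ b j, tw (!b) j = neg (tw b j) := by intro b j; cases b <;> simp [tw, hn]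
  have hi : Function.Injective neg := Function.Involutive.injective hn
  let G : (Om L H → ZMod q) → Om L H × Bool → ZMod q :=
    fun j s => if s.2 then j s.1 else neg (j (ρ⁻¹ s.1))
  have G1 : ∀ j s, G j (nu ρ s) = neg (G j s) := by
    rintro j ⟨o, b⟩; cases b <;> simp [G, nu, hn]
  have G2 : ∀ j : Om L H → ZMod q, (∀ s, G j (al τ s) = neg (G j s)) ↔
      (∀ w, j (ρ⁻¹ (Sum.inl w)) = j (Sum.inl w)) ∧
      ∀ w, cond neg (τ w) (j (ρ⁻¹ (Sum.inr (w, false)))) (j (Sum.inr (w, false)))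
        (j (ρ⁻¹ (Sum.inr (w, true)))) (j (Sum.inr (w, true))) := by
    intro j
    simp only [Prod.forall, Sum.forall]
    refine and_congr (forall_congr' fun w => ?_) (forall_congr' fun w => ?_)
    · simp only [G, al, Bool.forall_bool]
      simp [hn, hi.eq_iff, eq_comm]
    · simp only [Bool.forall_bool, cond, al]
      split_ifs
      · simp only [G]
        simp only [Bool.not_false, Bool.not_true, if_true, Bool.false_eq_true, if_false, hn,
          hi.eq_iff]
        exact ⟨fun h => ⟨h.1.2, h.2.2⟩, fun h => ⟨⟨h.1.symm, h.1⟩, h.2.symm, h.2⟩⟩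
      · simp only [G]
        simp only [Bool.not_false, Bool.not_true, if_true, Bool.false_eq_true, if_false,
          hi.eq_iff]
        exact ⟨fun h => ⟨h.1.2, h.1.1⟩,
          fun h => ⟨⟨h.2, h.1⟩, by rw [h.2, hn], by rw [h.1, hn]⟩⟩
      · simp only [G]
        simp only [Bool.not_false, Bool.not_true, if_true, Bool.false_eq_true, if_false, hn,
          hi.eq_iff]
        exact ⟨fun h => ⟨h.1.2, h.1.1⟩, fun h => ⟨⟨h.2, h.1⟩, h.1.symm, h.2.symm⟩⟩
  unfold nl
  refine card_bij (fun j _ => fun s => tw (g s) (G j s)) (fun j hj => ?_) (fun j _ j' _ h => ?_)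
    (fun f hf => ?_)
  · simp only [mem_filter, mem_univ, true_and] at hj ⊢
    exact ⟨fun s => by simp only [g1, G1, t2], fun s => by simp only [g2, (G2 j).2 hj s, t2]⟩
  · funext o
    have := congrArg (tw (g (o, true))) (congrFun h (o, true))
    simpa [t1, G] using this
  · simp only [mem_filter, mem_univ, true_and] at hf
    have e : G (fun o => tw (g (o, true)) (f (o, true))) = fun s => tw (g s) (f s) := by
      funext ⟨o, b⟩
      cases b
      · have h1 : nu ρ (ρ⁻¹ o, true) = (o, false) := by simp [nu]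
        have h2 := G1 (fun o => tw (g (o, true)) (f (o, true))) (ρ⁻¹ o, true)
        rw [← h1, h2, g1, hf.1, t3]; rfl
      · rfl
    refine ⟨fun o => tw (g (o, true)) (f (o, true)), ?_, by funext s; simp only [e, t1]⟩
    simp only [mem_filter, mem_univ, true_and]
    refine (G2 fun o => tw (g (o, true)) (f (o, true))).1 fun s => ?_
    simp only [e, g2, hf.2, t3]

lemma state_tp (ρ : Perm (Om L H)) (q : ℕ) [NeZero q] (neg : ZMod q → ZMod q)
    (hn : ∀ j, neg (neg j) = j) (jv : (K → Bool) → ZMod q) (sec : ZMod q → K → Bool)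
    {R : Type} [CommRing R] (r : ZMod q → R) (lam mu : ℤ) (wt : Fin 3 → ℤ)
    (hc : ∀ j, ((∑ a with jv a = j, cw a : ℤ) : R) = r j * r j)
    (hl : ∀ a b, lf a b = lf (sec (jv a)) (sec (jv b)))
    (hh : ∀ a b a' b', hf a b a' b' = hf (sec (jv a)) (sec (jv b)) (sec (jv a')) (sec (jv b')))
    (hl' : ∀ a b, (lf (sec a) (sec b) : R) * (r a * r b) = lam * if a = b then 1 else 0)
    (hh' : ∀ a b a' b', (hf (sec a) (sec b) (sec a') (sec b') : R) * (r a * r b * (r a' * r b'))
      = mu * ((∑ y, wt y * if cond neg y a b a' b' then 1 else 0 : ℤ) : R)) :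
    ((∑ γ : Om L H → K → Bool, (∏ o, cw (γ o)) *
      ((∏ w, lf (γ (ρ⁻¹ (Sum.inl w))) (γ (Sum.inl w))) *
        ∏ w, hf (γ (ρ⁻¹ (Sum.inr (w, false)))) (γ (Sum.inr (w, false)))
          (γ (ρ⁻¹ (Sum.inr (w, true)))) (γ (Sum.inr (w, true)))) : ℤ) : R)
      = ((lam ^ Fintype.card L * mu ^ Fintype.card H * tp ρ q wt (fun _ => 0) univ : ℤ) : R) := by
  let F : (Om L H → ZMod q) → ℤ := fun j =>
    (∏ w, lf (sec (j (ρ⁻¹ (Sum.inl w)))) (sec (j (Sum.inl w)))) *
      ∏ w, hf (sec (j (ρ⁻¹ (Sum.inr (w, false))))) (sec (j (Sum.inr (w, false))))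
        (sec (j (ρ⁻¹ (Sum.inr (w, true))))) (sec (j (Sum.inr (w, true))))
  have h1 : ∑ γ : Om L H → K → Bool, (∏ o, cw (γ o)) *
      ((∏ w, lf (γ (ρ⁻¹ (Sum.inl w))) (γ (Sum.inl w))) *
        ∏ w, hf (γ (ρ⁻¹ (Sum.inr (w, false)))) (γ (Sum.inr (w, false)))
          (γ (ρ⁻¹ (Sum.inr (w, true)))) (γ (Sum.inr (w, true))))
      = ∑ j : Om L H → ZMod q, (∏ o, ∑ a with jv a = j o, cw a) * F j := by
    rw [← sum_fiberwise (s := univ) (g := fun (γ : Om L H → K → Bool) o => jv (γ o))]
    refine sum_congr rfl fun j _ => ?_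
    rw [prod_univ_sum, sum_mul]
    refine sum_congr (by ext γ; simp [funext_iff]) fun γ hγ => ?_
    have : ∀ o, jv (γ o) = j o := by simpa using hγ
    simp only [F, ← this, ← hl, ← hh]
  have h2 : ∀ j : Om L H → ZMod q, (((∏ o, ∑ a with jv a = j o, cw a) * F j : ℤ) : R)
      = ((lam ^ Fintype.card L * mu ^ Fintype.card H *
        ∑ τ : H → Fin 3, (∏ w, wt (τ w)) * if (∀ w, j (ρ⁻¹ (Sum.inl w)) = j (Sum.inl w)) ∧
          ∀ w, cond neg (τ w) (j (ρ⁻¹ (Sum.inr (w, false)))) (j (Sum.inr (w, false)))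
            (j (ρ⁻¹ (Sum.inr (w, true)))) (j (Sum.inr (w, true))) then 1 else 0 : ℤ) : R) := by
    intro j
    have e1 : ((∏ o, ∑ a with jv a = j o, cw a : ℤ) : R) = ∏ o, r (j (ρ⁻¹ o)) * r (j o) := by
      rw [Int.cast_prod]
      simp only [hc, prod_mul_distrib]
      rw [Equiv.prod_comp ρ⁻¹ (fun o => r (j o))]
    have e2 : ∀ (a b c d : R), a * b * (c * d) = c * a * (d * b) := by intros; ring
    rw [Int.cast_mul, e1, Fintype.prod_sum_type, Fintype.prod_prod_type]
    simp only [F, Int.cast_mul, Int.cast_prod, Fintype.prod_bool]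
    rw [e2, ← prod_mul_distrib, ← prod_mul_distrib]
    simp only [mul_comm (r (j (ρ⁻¹ (Sum.inr (_, true)))) * _), hl', hh', prod_mul_distrib,
      prod_const, card_univ, Fintype.prod_boole]
    rw [← Int.cast_prod, prod_univ_sum, Fintype.piFinset_univ]
    simp only [prod_mul_distrib, Fintype.prod_boole]
    push_cast
    by_cases h : ∀ w, j (ρ⁻¹ (Sum.inl w)) = j (Sum.inl w)
    · simp only [h, implies_true, if_true, true_and]; ring
    · simp only [h, if_false, false_and]; simp
  rw [h1, Int.cast_sum]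
  simp only [h2]
  rw [← Int.cast_sum, ← mul_sum, sum_comm]
  congr 2
  unfold tp
  refine sum_congr rfl fun τ _ => ?_
  rw [← mul_sum, sum_boole, card_cond ρ q neg hn τ]
  simp

end Pool.Agent.P.MP_20b97f_co.Spin
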