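import Pool.Agent.P.MP_20b97f_co.Spin.Repair

/-!
A congruence between a transition polynomial and a number of nowhere-zero flows, by deletion and
contraction.
-/

set_option autoImplicit false
set_option linter.unusedSectionVars false

namespace Pool.Agent.P.MP_20b97f_co.Spin

open Finset Function

variable {L H : Type} [Fintype L] [DecidableEq L] [Fintype H] [DecidableEq H]

/-- Light edges and half-edges of heavy edges. -/
abbrev Om (L H : Type) := L ⊕ H × Bool

/-- The pairing of the cable ends at the vertices. -/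
def nu (ρ : Equiv.Perm (Om L H)) (s : Om L H × Bool) : Om L H × Bool :=
  if s.2 then (ρ s.1, false) else (ρ⁻¹ s.1, true)

/-- The pairing of the cable ends along the edges, for a choice of transitions. -/
def al (τ : H → Fin 3) : Om L H × Bool → Om L H × Bool
  | (Sum.inl w, b) => (Sum.inl w, !b)
  | (Sum.inr (w, d), b) =>
    if τ w = 0 then (Sum.inr (w, d), !b)
    else if τ w = 1 then (Sum.inr (w, !d), b) else (Sum.inr (w, !d), !b)

lemma fpf_nu (ρ : Equiv.Perm (Om L H)) : FPF (nu ρ) :=
  ⟨fun ⟨x, b⟩ => by cases b <;> simp [nu], fun ⟨x, b⟩ => by cases b <;> simp [nu]⟩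

lemma fpf_al (τ : H → Fin 3) : FPF (al (L := L) τ) := by
  refine ⟨?_, ?_⟩ <;> rintro ⟨w | ⟨w, d⟩, b⟩
  · simp [al]
  · by_cases h0 : τ w = 0 <;> by_cases h1 : τ w = 1 <;> simp [al, h0, h1]
  · simp [al]
  · by_cases h0 : τ w = 0 <;> by_cases h1 : τ w = 1 <;> simp [al, h0, h1]

/-- A cable end of a heavy edge. -/
abbrev en (w : H) (d b : Bool) : Om L H × Bool := (Sum.inr (w, d), b)

lemma al_off (τ : H → Fin 3) (w : H) (y : Fin 3) (s : Om L H × Bool) (h1 : s ≠ en w false true)
    (h2 : s ≠ en w false false) (h3 : s ≠ en w true true) (h4 : s ≠ en w true false) :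
    al (update τ w y) s = al τ s := by
  obtain ⟨x | ⟨x, d⟩, b⟩ := s
  · rfl
  · have : x ≠ w := by
      rintro rfl
      cases d <;> cases b <;> simp at h1 h2 h3 h4
    simp [al, this]

lemma repA {τ : H → Fin 3} {w : H} (h : τ w = 0) :
    Repair (al (L := L) τ) (al (update τ w 1)) (en w false true) (en w false false)
      (en w true true) (en w true false) :=
  ⟨fpf_al _, fpf_al _, by simp [al, h], by simp [al, h], by simp [al], by simp [al], by simp,
    fun s a b c d => al_off τ w 1 s a b c d⟩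

lemma repB {τ : H → Fin 3} {w : H} (h : τ w = 0) :
    Repair (al (L := L) τ) (al (update τ w 2)) (en w false true) (en w false false)
      (en w true false) (en w true true) :=
  ⟨fpf_al _, fpf_al _, by simp [al, h], by simp [al, h], by simp [al], by simp [al], by simp,
    fun s a b c d => al_off τ w 2 s a b d c⟩

lemma iv_true {X : Type} {ρ : Equiv.Perm (Om L H)} {τ : H → Fin 3} {w : H} (h : τ w = 0)
    {f : Om L H × Bool → X} (hf : Iv (nu ρ) (al τ) f) :
    f (en w true false) = f (en w true true) := by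
  rw [← hf.2 (en w true true)]; simp [al, h]

variable (ρ : Equiv.Perm (Om L H)) (m : ℕ) [NeZero m]

/-- Conservation of a labelling of the heavy edges at every loop. -/
def Cons (τ : H → Fin 3) (φ : H → ZMod m) : Prop :=
  ∀ h : Om L H × Bool → ℤ, Iv (nu ρ) (al τ) h →
    ∑ w, (h (en w false true) - h (en w true true)) • φ w = 0

open Classical in
/-- The number of flows with support `R`. -/
noncomputable def nf (τ : H → Fin 3) (R : Finset H) : ℕ :=
  (univ.filter fun φ : H → ZMod m => (∀ w, φ w ≠ 0 ↔ w ∈ R) ∧ Cons ρ m τ φ).card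

open Classical in
lemma nf_add (τ : H → Fin 3) {R : Finset H} {w : H} (hw : w ∉ R) :
    nf ρ m τ (insert w R) + nf ρ m τ R = (univ.filter fun φ : H → ZMod m =>
      (∀ x, x ≠ w → (φ x ≠ 0 ↔ x ∈ R)) ∧ Cons ρ m τ φ).card := by
  rw [← card_filter_add_card_filter_not (fun φ : H → ZMod m => φ w ≠ 0), filter_filter,
    filter_filter]
  unfold nf
  congr 2 <;> ext φ <;> simp only [mem_filter, mem_univ, true_and]
  · refine ⟨fun ⟨h1, h2⟩ => ⟨⟨fun x hx => by simp [h1 x, hx], h2⟩, (h1 w).2 (by simp)⟩,
      fun ⟨⟨h1, h2⟩, h3⟩ => ⟨fun x => ?_, h2⟩⟩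
    by_cases hx : x = w
    · simp [hx, h3]
    · simp [h1 x hx, hx]
  · refine ⟨fun ⟨h1, h2⟩ => ⟨⟨fun x _ => h1 x, h2⟩, fun h => hw ((h1 w).1 h)⟩,
      fun ⟨⟨h1, h2⟩, h3⟩ => ⟨fun x => ?_, h2⟩⟩
    by_cases hx : x = w
    · rw [hx]; exact ⟨fun h => absurd h h3, fun h => absurd h hw⟩
    · exact h1 x hx

lemma sum_update_smul (c : H → ℤ) (φ : H → ZMod m) (w : H) (y : ZMod m) :
    ∑ x, c x • update φ w y x = ∑ x, c x • φ x + c w • (y - φ w) := by
  have : ∀ x, c x • update φ w y x = c x • φ x + if x = w then c w • (y - φ w) else 0 := by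
    intro x
    by_cases hx : x = w
    · subst hx; simp [smul_sub]
    · simp [hx]
  simp only [this, sum_add_distrib, sum_ite_eq', mem_univ, if_true]

/-- Contraction of a heavy edge joining two loops. -/
lemma nf_con {τ τ' : H → Fin 3} {R : Finset H} {w : H} (hw : w ∉ R)
    (hs : ¬ Same (nu ρ) (al τ) (en w false true) (en w true true))
    (hm : ∀ h : Om L H × Bool → ℤ, Iv (nu ρ) (al τ') h ↔
      Iv (nu ρ) (al τ) h ∧ h (en w false true) = h (en w true true)) :
    nf ρ m τ (insert w R) + nf ρ m τ R = nf ρ m τ' R := by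
  classical
  rw [nf_add ρ m τ hw]
  obtain ⟨k, hk, k1, k0⟩ := exists_sep hs
  unfold nf
  refine card_bij (fun φ _ => update φ w 0) (fun φ hφ => ?_) (fun φ hφ ψ hψ h => ?_)
    (fun ψ hψ => ?_)
  · simp only [mem_filter, mem_univ, true_and] at hφ ⊢
    refine ⟨fun x => ?_, fun h hh => ?_⟩
    · by_cases hx : x = w
      · simp [hx, hw]
      · simp [hx, hφ.1 x hx]
    · rw [sum_update_smul, hφ.2 h ((hm h).1 hh).1, ((hm h).1 hh).2]; simp
  · simp only [mem_filter, mem_univ, true_and] at hφ hψ
    have e1 := sum_update_smul m (fun x => k (en x false true) - k (en x true true)) φ w 0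
    have e2 := sum_update_smul m (fun x => k (en x false true) - k (en x true true)) ψ w 0
    rw [hφ.2 k hk] at e1
    rw [hψ.2 k hk, ← h, e1, k1, k0] at e2
    funext x
    by_cases hx : x = w
    · simpa [hx] using e2
    · simpa [hx] using congrFun h x
  · simp only [mem_filter, mem_univ, true_and] at hψ
    have h0 : ψ w = 0 := by
      by_contra h; exact hw ((hψ.1 w).1 h)
    refine ⟨update ψ w (-∑ x, (k (en x false true) - k (en x true true)) • ψ x), ?_, ?_⟩
    · simp only [mem_filter, mem_univ, true_and]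
      refine ⟨fun x hx => by simp [hx, hψ.1 x], fun h hh => ?_⟩
      have := hψ.2 (fun s => h s - (h (en w false true) - h (en w true true)) * k s)
        ((hm _).2 ⟨⟨fun s => by simp only [hh.1, hk.1], fun s => by simp only [hh.2, hk.2]⟩,
          by simp [k1, k0]⟩)
      rw [sum_update_smul, h0, sub_zero, smul_neg, smul_sum, ← sub_eq_add_neg, ← sum_sub_distrib,
        ← this]
      refine sum_congr rfl fun x _ => ?_
      rw [smul_smul, ← sub_smul]
      congr 1; ring
    · rw [update_idem, ← h0, update_eq_self]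

/-- A heavy edge with both ends on one loop. -/
lemma nf_loop {τ : H → Fin 3} {R : Finset H} {w : H} (hw : w ∉ R)
    (hs : Same (nu ρ) (al τ) (en w false true) (en w true true)) :
    nf ρ m τ (insert w R) + nf ρ m τ R = m * nf ρ m τ R := by
  classical
  rw [nf_add ρ m τ hw]
  have hq : ((univ : Finset (ZMod m)) ×ˢ univ.filter fun φ : H → ZMod m =>
      (∀ w, φ w ≠ 0 ↔ w ∈ R) ∧ Cons ρ m τ φ).card = m * nf ρ m τ R := by
    rw [card_product, card_univ, ZMod.card]; rfl
  rw [← hq]
  have hc : ∀ φ y, Cons ρ m τ φ → Cons ρ m τ (update φ w y) := fun φ y hφ h hh => by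
    rw [sum_update_smul, hφ h hh, hs h hh]; simp
  refine card_bij (fun φ _ => (φ w, update φ w 0)) (fun φ hφ => ?_) (fun φ _ ψ _ h => ?_)
    (fun ψ hψ => ?_)
  · simp only [mem_filter, mem_univ, true_and, mem_product] at hφ ⊢
    refine ⟨fun x => ?_, hc _ _ hφ.2⟩
    by_cases hx : x = w
    · simp [hx, hw]
    · simp [hx, hφ.1 x hx]
  · funext x
    by_cases hx : x = w
    · rw [hx]; exact congrArg Prod.fst h
    · simpa [hx] using congrFun (congrArg Prod.snd h) x
  · simp only [mem_filter, mem_univ, true_and, mem_product] at hψ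
    have h0 : ψ.2 w = 0 := by
      by_contra h; exact hw ((hψ.1 w).1 h)
    refine ⟨update ψ.2 w ψ.1, ?_, ?_⟩
    · simp only [mem_filter, mem_univ, true_and]
      exact ⟨fun x hx => by simp [hx, hψ.1 x], hc _ _ hψ.2⟩
    · rw [update_idem, ← h0, update_eq_self, update_self]

lemma nf_congr {τ τ' : H → Fin 3} (R : Finset H)
    (hm : ∀ h : Om L H × Bool → ℤ, Iv (nu ρ) (al τ') h ↔ Iv (nu ρ) (al τ) h) :
    nf ρ m τ' R = nf ρ m τ R := by
  have : Cons ρ m τ' = Cons ρ m τ := by
    funext φ; simp only [Cons, hm]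
  rw [nf, nf, this]

lemma nf_empty (τ : H → Fin 3) : nf ρ m τ ∅ = 1 := by
  classical
  rw [nf, card_eq_one]
  refine ⟨0, ?_⟩
  ext φ
  simp only [mem_filter, mem_univ, true_and, mem_singleton]
  refine ⟨fun h => funext fun w => by simpa using h.1 w, ?_⟩
  rintro rfl
  exact ⟨by simp, fun h _ => by simp⟩

variable (q : ℕ) [NeZero q] (wt : Fin 3 → ℤ)

/-- The transition polynomial, with the transitions outside `R` prescribed. -/
def tp (τ : H → Fin 3) (R : Finset H) : ℤ :=
  ∑ σ : H → Fin 3, if ∀ w, w ∉ R → σ w = τ w then (∏ w ∈ R, wt (σ w)) * nl q (nu ρ) (al σ) else 0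

lemma tp_empty (τ : H → Fin 3) : tp ρ q wt τ ∅ = nl q (nu ρ) (al τ) := by
  rw [tp, sum_eq_single τ]
  · simp
  · intro σ _ h
    rw [if_neg]
    intro h'
    exact h (funext fun w => h' w (by simp))
  · simp

lemma tp_insert (τ : H → Fin 3) {R : Finset H} {w : H} (hw : w ∉ R) :
    tp ρ q wt τ (insert w R) = ∑ y, wt y * tp ρ q wt (update τ w y) R := by
  simp only [tp, mul_sum]
  rw [sum_comm]
  refine sum_congr rfl fun σ _ => ?_
  rw [sum_eq_single (σ w)]
  · have : (∀ x, x ∉ R → σ x = update τ w (σ w) x) ↔ ∀ x, x ∉ insert w R → σ x = τ x := by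
      refine forall_congr' fun x => ?_
      by_cases hx : x = w
      · simp [hx]
      · simp [hx]
    simp only [this, prod_insert hw]
    split_ifs <;> ring
  · intro y _ hy
    rw [if_neg, mul_zero]
    intro h
    exact hy (by simpa using (h w hw).symm)
  · simp

theorem tp_modEq {u a b : ℤ} (h0 : wt 0 = -u) (h1 : wt 1 = q * a) (h2 : wt 2 = q * b)
    (hab : a + b = u) (hA : (q : ℤ) ^ 2 ∣ wt 1 - u * m)
    (hB : (q : ℤ) ^ 2 ∣ wt 2 - u * m ∨ a = 0) (R : Finset H) :
    ∀ τ : H → Fin 3, (∀ w ∈ R, τ w = 0) → ((q : ℤ) ^ 2 ∣ wt 2 - u * m ∨ ∀ w, τ w ≠ 1) →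
      (q : ℤ) ^ 2 * nl q (nu ρ) (al τ) ∣
        tp ρ q wt τ R - nl q (nu ρ) (al τ) * (u ^ R.card * nf ρ m τ R) := by
  induction R using Finset.induction_on with
  | empty => intro τ _ _; simp [tp_empty, nf_empty]
  | insert w R hw ih =>
    intro τ hτ hok
    have hτw : τ w = 0 := hτ w (by simp)
    have hup : ∀ y, ∀ x ∈ R, update τ w y x = 0 := fun y x hx => by
      rw [update_of_ne (fun h : x = w => hw (h ▸ hx))]; exact hτ x (by simp [hx])
    have i0 := ih τ (fun x hx => hτ x (by simp [hx])) hok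
    have i2 := ih (update τ w 2) (hup 2) (hok.imp_right fun h x => by
      by_cases hx : x = w
      · simp [hx]
      · simpa [hx] using h x)
    have i1 : (q : ℤ) ^ 2 * nl q (nu ρ) (al (update τ w 1)) ∣ a * (tp ρ q wt (update τ w 1) R
        - nl q (nu ρ) (al (update τ w 1)) * (u ^ R.card * nf ρ m (update τ w 1) R)) := by
      rcases hB with hB | hB
      · exact (ih (update τ w 1) (hup 1) (Or.inl hB)).mul_left a
      · simp [hB]
    rw [tp_insert ρ q wt τ hw, Fin.sum_univ_three, card_insert_of_notMem hw,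
      show update τ w 0 = τ by rw [← hτw, update_eq_self], h0, h1, h2]
    have rA := repA (L := L) hτw
    have rB := repB (L := L) hτw
    have hν := fpf_nu ρ
    obtain ⟨c0, e0⟩ := i0
    obtain ⟨c1, e1⟩ := i1
    obtain ⟨c2, e2⟩ := i2
    by_cases hs : Same (nu ρ) (al τ) (en w false true) (en w true true)
    · have hs' : Same (nu ρ) (al τ) (en w false true) (en w true false) := fun h hh => by
        rw [iv_true hτw hh, hs h hh]
      have f1 : (nf ρ m τ (insert w R) : ℤ) = m * nf ρ m τ R - nf ρ m τ R := by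
        have := nf_loop ρ m hw hs
        zify at this; linarith
      obtain ⟨g, hg, hg'⟩ : ∃ g, Ori (nu ρ) (al τ) g ∧ ((q : ℤ) ^ 2 ∣ wt 2 - u * m ∨
          g (en w false true) = g (en w true true)) := by
        rcases hok with hok | hok
        · obtain ⟨g, hg⟩ := orient hν (fpf_al (L := L) τ)
          exact ⟨g, hg, Or.inl hok⟩
        · refine ⟨Prod.snd, ⟨fun ⟨x, b⟩ => by cases b <;> simp [nu], ?_⟩, Or.inr rfl⟩
          rintro ⟨x | ⟨x, d⟩, b⟩
          · simp [al]
          · by_cases h : τ x = 0 <;> simp [al, h, hok x]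
      have gv : g (en w true false) = !g (en w true true) := by
        rw [← hg.2 (en w true true)]; simp [al, hτw]
      by_cases huv : g (en w false true) = g (en w true true)
      · have n1 : nl q (nu ρ) (al (update τ w 1)) = nl q (nu ρ) (al τ) := by
          simp only [nl, rA.rev hν hs hg huv]
        have f2 := nf_congr ρ m R (rA.rev hν hs hg huv)
        have n2 := rB.symm.nl_merge q hν (rB.split rA hν hs' hg (by rw [gv, huv]))
        obtain ⟨d, hd⟩ := hA
        rw [n1, f2] at e1
        rw [n2] at e2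
        push_cast at e2
        rw [h1] at hd
        refine ⟨-u * c0 + q * c1 + q ^ 2 * b * c2 + b * (u ^ R.card * nf ρ m (update τ w 2) R)
          + d * (u ^ R.card * nf ρ m τ R), ?_⟩
        rw [f1]
        linear_combination (-u) * e0 + q * e1 + q * b * e2
          + (nl q (nu ρ) (al τ) * (u ^ R.card * nf ρ m τ R) : ℤ) * hd
      · have huv' : g (en w false true) = g (en w true false) := by
          rw [gv]; revert huv; cases g (en w false true) <;> cases g (en w true true) <;> simp
        have n2 : nl q (nu ρ) (al (update τ w 2)) = nl q (nu ρ) (al τ) := by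
          simp only [nl, rB.rev hν hs' hg huv']
        have f2 := nf_congr ρ m R (rB.rev hν hs' hg huv')
        have n1 := rA.symm.nl_merge q hν (rA.split rB hν hs hg (by rw [huv', gv]; simp))
        obtain ⟨d, hd⟩ := hg'.resolve_right huv
        rw [n2, f2] at e2
        rw [n1] at e1
        push_cast at e1
        rw [h2] at hd
        refine ⟨-u * c0 + q ^ 2 * c1 + q * b * c2 + a * (u ^ R.card * nf ρ m (update τ w 1) R)
          + d * (u ^ R.card * nf ρ m τ R), ?_⟩
        rw [f1]
        linear_combination (-u) * e0 + q * e1 + q * b * e2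
          + (nl q (nu ρ) (al τ) * (u ^ R.card * nf ρ m τ R) : ℤ) * hd
    · have hs' : ¬ Same (nu ρ) (al τ) (en w false true) (en w true false) := fun hs' =>
        hs fun h hh => by rw [← iv_true hτw hh, hs' h hh]
      have n1 := rA.nl_merge q hν hs
      have n2 := rB.nl_merge q hν hs'
      have f1 := nf_con ρ m hw hs (rA.merge hν hs)
      have f2 := nf_con ρ m hw hs (τ' := update τ w 2) fun h => by
        rw [rB.merge hν hs']
        exact and_congr_right fun hh => by rw [iv_true hτw hh]
      zify at n1 n2 f1 f2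
      rw [← f1] at e1
      rw [← f2] at e2
      refine ⟨-u * c0 + c1 + b * c2, ?_⟩
      rw [← hab] at *
      linear_combination (-(a + b)) * e0 + q * e1 + q * b * e2
        - (a * ((a + b) ^ R.card * (nf ρ m τ (insert w R) + nf ρ m τ R)) + q ^ 2 * c1 : ℤ) * n1
        - (b * ((a + b) ^ R.card * (nf ρ m τ (insert w R) + nf ρ m τ R)) + q ^ 2 * b * c2 : ℤ) * n2

end Pool.Agent.P.MP_20b97f_co.Spin
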